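import Pool.Agent.Y995.TP.FastTop

/-!
Almost surely the fast times of the scale `(1/2) ^ n` are rare.
-/

set_option autoImplicit false
set_option linter.unusedVariables false

namespace Pool.Agent.V11321.EV

open H974 Finset H342P H984P H984N Pool.Agent.Y995.FS Pool.Agent.Y995.HG Pool.Agent.Y41.EV
open Pool.Agent.Y995.TP
open MeasureTheory Filter Topology
open scoped ENNReal NNReal

/-- displacements -/
noncomputable def yn (K : ℝ) (n : ℕ) : ℝ :=
  K * ((((1:ℝ)/2) ^ n) ^ (4/7 : ℝ) * Real.log n ^ (3/7 : ℝ))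

theorem yn_pow {K : ℝ} (hK : 0 < K) (n : ℕ) : yn K n ^ (7/4 : ℝ) =
    K ^ (7/4 : ℝ) * ((1/2) ^ n * Real.log n ^ (3/4 : ℝ)) := by
  have hl : 0 ≤ Real.log n := Real.log_natCast_nonneg n
  unfold yn
  rw [Real.mul_rpow hK.le (by positivity), Real.mul_rpow (by positivity) (by positivity),
    ← Real.rpow_mul (by positivity), ← Real.rpow_mul hl]
  norm_num

theorem yn_pos {K : ℝ} (hK : 0 < K) {n : ℕ} (hn : 2 ≤ n) : 0 < yn K n := by
  have : (0:ℝ) < Real.log n := Real.log_pos (by exact_mod_cast hn)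
  unfold yn; positivity

theorem yn_lim {K : ℝ} (hK : 0 < K) : Tendsto (yn K) atTop (𝓝 0) := by
  have h1 : Tendsto (fun j : ℕ => K * ((j : ℝ) ^ 1 * (((1:ℝ)/2) ^ (4/7 : ℝ)) ^ j)) atTop
      (𝓝 (K * 0)) := by
    refine Tendsto.const_mul K ?_
    refine tendsto_pow_const_mul_const_pow_of_lt_one 1 (by positivity) ?_
    exact Real.rpow_lt_one (by norm_num) (by norm_num) (by norm_num)
  rw [mul_zero] at h1
  refine squeeze_zero' (Eventually.of_forall fun j => ?_) ?_ h1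
  · have hl : 0 ≤ Real.log j := Real.log_natCast_nonneg j
    unfold yn; positivity
  · filter_upwards [eventually_ge_atTop 1] with j hj
    have hj0 : (1:ℝ) ≤ j := by exact_mod_cast hj
    have hl : 0 ≤ Real.log j := Real.log_natCast_nonneg j
    have hl2 : Real.log j ≤ j := (Real.log_le_sub_one_of_pos (by linarith)).trans (by linarith)
    unfold yn
    refine mul_le_mul_of_nonneg_left ?_ hK.le
    rw [mul_comm, ← Real.rpow_natCast ((1:ℝ)/2) j, ← Real.rpow_mul (by norm_num),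
      mul_comm (j : ℝ) (4/7), Real.rpow_mul (by norm_num), Real.rpow_natCast]
    refine mul_le_mul_of_nonneg_right ?_ (by positivity)
    have h2 : Real.log j ^ (3/7 : ℝ) ≤ (j:ℝ) ^ (3/7 : ℝ) := Real.rpow_le_rpow hl hl2 (by norm_num)
    have := Real.rpow_le_rpow_of_exponent_le hj0 (show (3/7 : ℝ) ≤ 1 by norm_num)
    rw [Real.rpow_one] at this
    rw [pow_one]
    exact h2.trans this

theorem ft_as {a B : ℝ} (ha : 0 < a) (hB : 0 < B) {R : Rect} {A y0 : ℝ}
    (hA : 0 < A) (hy0 : 0 < y0) (h : FTL a B R A y0) {K : ℝ} (hK : 0 < K)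
    (haK : a * K ^ (7/3 : ℝ) / 2 ^ (4/3 : ℝ) = 4)
    {δ : ℕ → ℝ} (hδ : ∀ i, 0 < δ i) (hlim : Tendsto δ atTop (𝓝 0))
    {μ : ProbabilityMeasure X} (hμ : Tendsto (fun i => R.law (δ i)) atTop (𝓝 μ)) :
    ∀ᵐ p ∂(μ : Measure X), ∀ᶠ n : ℕ in atTop,
      p.2 * (volume (FT p (yn K n) (2 * (1/2) ^ n))).toReal ≤ 1 / (n : ℝ) ^ 2 := by
  have hev : ∀ᶠ j : ℕ in atTop, (2 ≤ j ∧ yn K j ≤ y0) ∧
      2 * B ≤ K ^ (7/4 : ℝ) * Real.log j ^ (3/4 : ℝ) := by
    refine ((eventually_ge_atTop 2).and ((yn_lim hK).eventually (ge_mem_nhds hy0))).and ?_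
    have h1 : Tendsto (fun j : ℕ => K ^ (7/4 : ℝ) * Real.log j ^ (3/4 : ℝ)) atTop atTop := by
      refine Tendsto.const_mul_atTop (by positivity) ?_
      exact (tendsto_rpow_atTop (by norm_num)).comp
        (Real.tendsto_log_atTop.comp tendsto_natCast_atTop_atTop)
    exact h1.eventually (eventually_ge_atTop _)
  rw [eventually_atTop] at hev
  obtain ⟨j1, hj1⟩ := hev
  have hs : Summable (fun j : ℕ => 4 * A * (1 / ((j : ℝ) + 1) ^ 2)) := by
    refine Summable.mul_left _ ?_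
    have := (summable_nat_add_iff 1).mpr (Real.summable_one_div_nat_pow.mpr (show 1 < 2 by norm_num))
    simpa using this
  have h2 := bc3 R (B := fun j : ℕ => {p : X | 1 / (j : ℝ) ^ 2 <
      p.2 * (volume (FT p (yn K j) (2 * (1/2) ^ j))).toReal})
    (fun j => Pool.Agent.Y287.EV.ftopen _ _ _ (by positivity)) hs (fun j => by positivity) (j1 := j1)
    (fun j hj => by
      obtain ⟨⟨g1, g2⟩, g3⟩ := hj1 j hj
      have hj0 : (0:ℝ) < j := by
        have : 0 < j := by omega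
        exact_mod_cast this
      have hl : 0 ≤ Real.log j := Real.log_natCast_nonneg j
      have hw0 : (0:ℝ) < (1/2) ^ j := by positivity
      obtain ⟨δ1, hδ1, h3⟩ := h (yn K j) (2 * (1/2) ^ j) (1 / (j : ℝ) ^ 2)
        (yn_pos hK g1) g2 (by positivity) (by
          rw [yn_pow hK]
          calc B * (2 * (1/2) ^ j) = (2 * B) * (1/2) ^ j := by ring
            _ ≤ (K ^ (7/4 : ℝ) * Real.log j ^ (3/4 : ℝ)) * (1/2) ^ j :=
              mul_le_mul_of_nonneg_right g3 hw0.le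
            _ = _ := by ring) (by positivity)
      refine ⟨δ1, hδ1, fun δ hδ hδ' => (h3 δ hδ hδ').trans ?_⟩
      have e1 : a * (yn K j ^ (7/4 : ℝ) / (2 * (1/2) ^ j)) ^ (4/3 : ℝ) = 4 * Real.log j := by
        rw [yn_pow hK]
        have e2 : K ^ (7/4 : ℝ) * ((1/2) ^ j * Real.log j ^ (3/4 : ℝ)) / (2 * (1/2) ^ j) =
            K ^ (7/4 : ℝ) * Real.log j ^ (3/4 : ℝ) / 2 := by
          field_simp
        have e4 : a * (K ^ (7/4 : ℝ) * Real.log j ^ (3/4 : ℝ) / 2) ^ (4/3 : ℝ) =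
            (a * K ^ (7/3 : ℝ) / 2 ^ (4/3 : ℝ)) * Real.log j := by
          rw [Real.div_rpow (by positivity) (by norm_num), Real.mul_rpow (by positivity)
            (by positivity), ← Real.rpow_mul hK.le, ← Real.rpow_mul hl]
          norm_num
          ring
        rw [e2, e4, haK]
      have e3 : Real.exp (-(4 * Real.log j)) = 1 / (j : ℝ) ^ 4 := by
        rw [Real.exp_neg, one_div, show 4 * Real.log (j:ℝ) = Real.log ((j:ℝ) ^ 4) by
          rw [Real.log_pow]; norm_num, Real.exp_log (by positivity)]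
      have hj1 : (1:ℝ) ≤ j := by exact_mod_cast (by omega : 1 ≤ j)
      rw [e1, e3]
      have e5 : A * (1 / (j:ℝ) ^ 4) / (1 / (j:ℝ) ^ 2) = A * (1 / (j:ℝ) ^ 2) := by
        field_simp
      rw [e5]
      have e6 : 1 / (j:ℝ) ^ 2 ≤ 4 * (1 / ((j:ℝ) + 1) ^ 2) := by
        rw [mul_one_div, div_le_div_iff₀ (by positivity) (by positivity)]
        nlinarith
      calc A * (1 / (j:ℝ) ^ 2) ≤ A * (4 * (1 / ((j:ℝ) + 1) ^ 2)) :=
            mul_le_mul_of_nonneg_left e6 hA.le
        _ = _ := by ring) hδ hlim hμ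
  filter_upwards [h2] with p hp
  filter_upwards [hp] with j hj
  exact not_lt.mp hj

end Pool.Agent.V11321.EV
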