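import Pool.Agent.V11321.EV.Tree

/-!
Lower bound for the `ψ`-variation: from the bulk to all intervals.
-/

set_option autoImplicit false
set_option linter.unusedVariables false

namespace Pool.Agent.V11321.EV

open Pool.Agent.Y41.EV
open MeasureTheory Filter Topology

theorem lowall {f : C(unitInterval, ℂ)} {T c0 : ℝ} (hT : 0 < T) (hc0 : 0 < c0)
    {g : unitInterval → ℝ} (hg : Continuous g) (hz : volume {u : unitInterval | g u ≤ 0} = 0)
    (hb : ∀ (k : ℕ) (s t : unitInterval), s < t → (∀ u ∈ Set.Icc s t, 1 / ((k : ℝ) + 1) < g u) →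
      ∀ η : ℝ, 0 < η → VG f η s t (c0 * (T * ((t : ℝ) - s)))) {s t : unitInterval} (hst : s < t)
    {η : ℝ} (hη : 0 < η) : VG f η s t (c0 / 2 * (T * ((t : ℝ) - s))) := by
  classical
  have hst' : (s : ℝ) < t := hst
  -- a level with much mass
  obtain ⟨K, hK⟩ : ∃ K : ℕ → Set unitInterval,
    K = fun k : ℕ => {u | u ∈ Set.Ioc s t ∧ 2 / ((k : ℝ) + 1) < g u} := ⟨_, rfl⟩
  have hmono : Monotone K := by
    intro k k' hkk u hu
    rw [hK] at hu ⊢
    refine ⟨hu.1, lt_of_le_of_lt ?_ hu.2⟩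
    have : (k:ℝ) ≤ k' := by exact_mod_cast hkk
    exact div_le_div_of_nonneg_left (by norm_num) (by positivity) (by linarith)
  have hun : Set.Ioc s t ⊆ (⋃ k, K k) ∪ {u : unitInterval | g u ≤ 0} := by
    intro u hu
    rcases le_or_gt (g u) 0 with h | h
    · right; exact h
    · left
      obtain ⟨k, hk⟩ := exists_nat_gt (2 / g u)
      rw [Set.mem_iUnion]
      refine ⟨k, ?_⟩
      rw [hK]
      refine ⟨hu, ?_⟩
      rw [div_lt_iff₀ h] at hk
      rw [div_lt_iff₀ (by positivity)]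
      nlinarith
  have hvol : ENNReal.ofReal ((t : ℝ) - s) ≤ volume (⋃ k, K k) := by
    have h1 := (measure_mono hun).trans (measure_union_le (μ := volume) _ _)
    rw [hz, add_zero, unitInterval.volume_Ioc] at h1
    exact h1
  have htend := tendsto_measure_iUnion_atTop (μ := (volume : Measure unitInterval)) hmono
  have hlt : ENNReal.ofReal (((t : ℝ) - s) / 2) < volume (⋃ k, K k) := by
    refine lt_of_lt_of_le ?_ hvol
    rw [ENNReal.ofReal_lt_ofReal_iff (by linarith)]
    linarith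
  obtain ⟨k, hk⟩ := (htend.eventually (lt_mem_nhds hlt)).exists
  simp only [Function.comp] at hk
  -- uniform continuity
  have huc : UniformContinuous g := CompactSpace.uniformContinuous_of_continuous hg
  obtain ⟨ρ, hρ, hρ2⟩ := Metric.uniformContinuous_iff.1 huc (1 / ((k : ℝ) + 1)) (by positivity)
  obtain ⟨n, hn⟩ := exists_nat_gt (((t : ℝ) - s) / ρ)
  have hn0 : (0 : ℝ) < n := lt_trans (div_pos (by linarith) hρ) hn
  obtain ⟨d, hd⟩ : ∃ d : ℝ, d = ((t : ℝ) - s) / n := ⟨_, rfl⟩
  have hd0 : 0 < d := by rw [hd]; exact div_pos (by linarith) hn0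
  have hdρ : d < ρ := by
    rw [hd, div_lt_iff₀ hn0, mul_comm]
    rwa [div_lt_iff₀ hρ] at hn
  have hnd : n * d = (t : ℝ) - s := by rw [hd]; field_simp
  obtain ⟨x, hx⟩ : ∃ x : ℕ → unitInterval, ∀ i, i ≤ n → (x i : ℝ) = s + i * d := by
    refine ⟨fun i => Set.projIcc 0 1 zero_le_one ((s : ℝ) + i * d), fun i hi => ?_⟩
    have h1 : (i : ℝ) ≤ n := by exact_mod_cast hi
    have h2 : (i : ℝ) * d ≤ n * d := mul_le_mul_of_nonneg_right h1 hd0.le
    have h3 := s.2.1
    have h4 := t.2.2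
    have h5 : (s : ℝ) + i * d ∈ Set.Icc (0:ℝ) 1 := ⟨by positivity, by linarith⟩
    show ((Set.projIcc 0 1 zero_le_one ((s : ℝ) + i * d) : unitInterval) : ℝ) = _
    rw [Set.projIcc_of_mem zero_le_one h5]
  have hlt' : ∀ i < n, x i < x (i + 1) := by
    intro i hi
    show (x i : ℝ) < x (i + 1)
    rw [hx i hi.le, hx (i + 1) hi]
    push_cast
    linarith
  have hx0 : x 0 = s := Subtype.ext (by rw [hx 0 (Nat.zero_le _)]; simp)
  have hxn : x n = t := Subtype.ext (by rw [hx n le_rfl, hnd]; ring)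
  obtain ⟨G, hG⟩ : ∃ G : Finset ℕ, G = (Finset.range n).filter
    (fun i => ∃ u ∈ K k, u ∈ Set.Ioc (x i) (x (i + 1))) := ⟨_, rfl⟩
  have hgood : ∀ i ∈ G, ∀ u ∈ Set.Icc (x i) (x (i + 1)), 1 / ((k : ℝ) + 1) < g u := by
    intro i hi u hu
    rw [hG, Finset.mem_filter, Finset.mem_range] at hi
    obtain ⟨hin, v, hv, hv2⟩ := hi
    rw [hK] at hv
    have h1 : (x i : ℝ) ≤ u := hu.1
    have h2 : (u : ℝ) ≤ x (i + 1) := hu.2
    have h3 : (x i : ℝ) < v := hv2.1
    have h4 : (v : ℝ) ≤ x (i + 1) := hv2.2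
    rw [hx i hin.le] at h1 h3
    rw [hx (i + 1) hin] at h2 h4
    push_cast at h2 h4
    have h5 : dist u v < ρ := by
      rw [Subtype.dist_eq, Real.dist_eq, abs_lt]
      constructor <;> linarith
    have h6 := hρ2 h5
    rw [Real.dist_eq, abs_lt] at h6
    have h7 := hv.2
    have e : 2 / ((k : ℝ) + 1) = 1 / ((k : ℝ) + 1) + 1 / ((k : ℝ) + 1) := by ring
    linarith [h6.1]
  have hcov : volume (K k) ≤ ENNReal.ofReal (G.card * d) := by
    have hsub : K k ⊆ ⋃ i ∈ G, Set.Ioc (x i) (x (i + 1)) := by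
      intro u hu
      have hu' := hu
      rw [hK] at hu'
      obtain ⟨⟨h1, h2⟩, -⟩ := hu'
      have h1' : (s : ℝ) < u := h1
      have h2' : (u : ℝ) ≤ t := h2
      obtain ⟨y, hy⟩ : ∃ y : ℝ, y = ((u : ℝ) - s) / d := ⟨_, rfl⟩
      have hy0 : 0 < y := by rw [hy]; exact div_pos (by linarith) hd0
      have hyd : y * d = (u : ℝ) - s := by rw [hy]; field_simp
      have hyn : y ≤ n := by
        rw [hy, div_le_iff₀ hd0, hnd]; linarith
      have hc1 : 1 ≤ ⌈y⌉₊ := Nat.one_le_ceil_iff.2 hy0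
      have hc2 : ⌈y⌉₊ ≤ n := Nat.ceil_le.2 hyn
      have hc3 : y ≤ ⌈y⌉₊ := Nat.le_ceil y
      have hc4 : (⌈y⌉₊ : ℝ) < y + 1 := Nat.ceil_lt_add_one hy0.le
      obtain ⟨i, hi⟩ : ∃ i : ℕ, i + 1 = ⌈y⌉₊ := ⟨⌈y⌉₊ - 1, by omega⟩
      have hi' : (i : ℝ) + 1 = (⌈y⌉₊ : ℝ) := by exact_mod_cast hi
      have hmem : u ∈ Set.Ioc (x i) (x (i + 1)) := by
        constructor
        · show (x i : ℝ) < u
          rw [hx i (by omega)]
          have : (i : ℝ) * d < y * d := mul_lt_mul_of_pos_right (by linarith) hd0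
          linarith
        · show (u : ℝ) ≤ x (i + 1)
          rw [hx (i + 1) (by omega)]
          have : y * d ≤ ((i : ℝ) + 1) * d := mul_le_mul_of_nonneg_right (by linarith) hd0.le
          push_cast
          linarith
      simp only [Set.mem_iUnion]
      refine ⟨i, ?_, hmem⟩
      rw [hG, Finset.mem_filter, Finset.mem_range]
      exact ⟨by omega, u, hu, hmem⟩
    refine (measure_mono hsub).trans ((measure_biUnion_finset_le _ _).trans (le_of_eq ?_))
    have e : ∀ i ∈ G, volume (Set.Ioc (x i) (x (i + 1))) = ENNReal.ofReal d := by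
      intro i hi
      rw [hG, Finset.mem_filter, Finset.mem_range] at hi
      rw [unitInterval.volume_Ioc, hx i hi.1.le, hx (i + 1) hi.1]
      congr 1
      push_cast; ring
    rw [Finset.sum_congr rfl e, Finset.sum_const, nsmul_eq_mul, ENNReal.ofReal_mul (Nat.cast_nonneg _),
      ENNReal.ofReal_natCast]
  have hG2 : ((t : ℝ) - s) / 2 < G.card * d := by
    have h1 := lt_of_lt_of_le hk hcov
    rw [ENNReal.ofReal_lt_ofReal_iff_of_nonneg (by linarith)] at h1
    exact h1
  have hrec : ∀ m : ℕ, m ≤ n → VG f η s (x m)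
      (∑ i ∈ Finset.range m, if i ∈ G then c0 * (T * d) else 0) := by
    intro m
    induction m with
    | zero =>
      intro _
      rw [hx0]
      simpa using VG.refl f η s
    | succ m ih =>
      intro hm
      have h1 := ih (by omega)
      rw [Finset.sum_range_succ]
      refine h1.add ?_
      by_cases hmG : m ∈ G
      · rw [if_pos hmG]
        have h2 := hb k (x m) (x (m + 1)) (hlt' m (by omega)) (hgood m hmG) η hη
        have e : ((x (m + 1) : unitInterval) : ℝ) - x m = d := by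
          rw [hx m (by omega), hx (m + 1) hm]
          push_cast; ring
        rwa [e] at h2
      · rw [if_neg hmG]
        exact VG.triv f hη (hlt' m (by omega)).le
  have hfin := hrec n le_rfl
  rw [hxn] at hfin
  refine hfin.le ?_
  have e1 : ∑ i ∈ Finset.range n, (if i ∈ G then c0 * (T * d) else 0) = G.card * (c0 * (T * d)) := by
    rw [← Finset.sum_filter]
    have e2 : (Finset.range n).filter (fun i => i ∈ G) = G := by
      ext i
      rw [Finset.mem_filter]
      refine ⟨fun h => h.2, fun h => ⟨?_, h⟩⟩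
      rw [hG, Finset.mem_filter] at h
      exact h.1
    rw [e2, Finset.sum_const, nsmul_eq_mul]
  rw [e1]
  have h3 := mul_le_mul_of_nonneg_left hG2.le (show 0 ≤ c0 * T by positivity)
  nlinarith

end Pool.Agent.V11321.EV
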