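import Pool.Agent.V11321.EV.UpS
import Pool.Agent.V11321.EV.LowAll

/-!
The law of the iterated logarithm at almost every time.
-/

set_option autoImplicit false
set_option linter.unusedVariables false

namespace Pool.Agent.V11321.EV

open H984N Pool.Agent.Y41.EV
open MeasureTheory Filter Topology
open scoped ENNReal NNReal

/-- `h ^ (4/7) (log log (1/h)) ^ (3/7)` -/
noncomputable def gl (h : ℝ) : ℝ := h ^ (4/7 : ℝ) * Real.log (Real.log (1 / h)) ^ (3/7 : ℝ)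

theorem loglog_tend : Tendsto (fun h : ℝ => Real.log (Real.log (1 / h))) (𝓝[>] 0) atTop := by
  have h1 : Tendsto (fun h : ℝ => 1 / h) (𝓝[>] 0) atTop := by
    simpa [one_div] using tendsto_inv_nhdsGT_zero (𝕜 := ℝ)
  exact Real.tendsto_log_atTop.comp (Real.tendsto_log_atTop.comp h1)

theorem log_tend' : Tendsto (fun h : ℝ => Real.log (1 / h)) (𝓝[>] 0) atTop := by
  have h1 : Tendsto (fun h : ℝ => 1 / h) (𝓝[>] 0) atTop := by
    simpa [one_div] using tendsto_inv_nhdsGT_zero (𝕜 := ℝ)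
  exact Real.tendsto_log_atTop.comp h1

theorem psi_gl {b : ℝ} (hb : 0 < b) (hb1 : b ≤ 1) : ∀ᶠ h : ℝ in 𝓝[>] 0,
    b * gl h ≤ 1 ∧ psi (b * gl h) ≤ 2 * b ^ (7/4 : ℝ) * h := by
  filter_upwards [self_mem_nhdsWithin, loglog_tend.eventually (eventually_ge_atTop (2 * Real.log 4)),
    log_tend'.eventually (eventually_ge_atTop 16)] with h h0 h1 h2
  have hh : (0:ℝ) < h := h0
  obtain ⟨L, hL⟩ : ∃ L : ℝ, L = Real.log (1 / h) := ⟨_, rfl⟩
  obtain ⟨l, hl⟩ : ∃ l : ℝ, l = Real.log L := ⟨_, rfl⟩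
  rw [← hL] at h1 h2
  rw [← hl] at h1
  have hlog4 : 1 ≤ Real.log 4 := by
    rw [Real.le_log_iff_exp_le (by norm_num)]
    have := Real.exp_one_lt_d9
    linarith
  have hl1 : 1 ≤ l := by linarith
  have hhe : h = Real.exp (-L) := by
    rw [hL, one_div, Real.log_inv, neg_neg, Real.exp_log hh]
  have hlL : l ≤ L / 2 := by
    have h3 : Real.log (L / 4) ≤ L / 4 := (Real.log_le_sub_one_of_pos (by linarith)).trans (by linarith)
    rw [Real.log_div (by linarith) (by norm_num), ← hl] at h3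
    linarith
  have hgl : gl h = Real.exp (-(4/7 * L)) * l ^ (3/7 : ℝ) := by
    unfold gl
    rw [← hL, ← hl]
    congr 1
    rw [hhe, ← Real.exp_mul]
    congr 1; ring
  have hgp : 0 < gl h := by rw [hgl]; positivity
  have hlexp : l ^ (3/7 : ℝ) ≤ Real.exp (L * (9/28)) := by
    have h3 : l ≤ Real.exp (L / 2) := by
      have := Real.add_one_le_exp (L / 2)
      linarith
    have h4 := Real.rpow_le_rpow (by linarith) h3 (show (0:ℝ) ≤ 3/7 by norm_num)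
    rw [← Real.exp_mul] at h4
    refine h4.trans (Real.exp_le_exp.2 ?_)
    linarith
  have hle : b * gl h ≤ Real.exp (-(L / 4)) := by
    have h3 : gl h ≤ Real.exp (-(L / 4)) := by
      rw [hgl]
      calc Real.exp (-(4/7 * L)) * l ^ (3/7 : ℝ) ≤ Real.exp (-(4/7 * L)) * Real.exp (L * (9/28)) :=
            mul_le_mul_of_nonneg_left hlexp (Real.exp_nonneg _)
        _ = _ := by rw [← Real.exp_add]; congr 1; ring
    calc b * gl h ≤ 1 * gl h := mul_le_mul_of_nonneg_right hb1 hgp.le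
      _ = gl h := one_mul _
      _ ≤ _ := h3
  have hY : 0 < b * gl h := by positivity
  refine ⟨hle.trans (by rw [Real.exp_le_one_iff]; linarith), ?_⟩
  have h5 : L / 4 ≤ Real.log (1 / (b * gl h)) := by
    rw [one_div, Real.log_inv]
    have := Real.log_le_log hY hle
    rw [Real.log_exp] at this
    linarith
  have h6 : l / 2 ≤ ll (b * gl h) := by
    refine le_trans ?_ (le_max_right _ _)
    refine le_trans ?_ (Real.log_le_log (by linarith) h5)
    rw [Real.log_div (by linarith) (by norm_num), ← hl]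
    linarith
  have h7 : (l / 2) ^ (3/4 : ℝ) ≤ ll (b * gl h) ^ (3/4 : ℝ) :=
    Real.rpow_le_rpow (by positivity) h6 (by norm_num)
  have h8 : l ^ (3/4 : ℝ) ≤ 2 * ll (b * gl h) ^ (3/4 : ℝ) := by
    rw [Real.div_rpow (by linarith) (by norm_num), div_le_iff₀ (by positivity)] at h7
    have h10 : (2:ℝ) ^ (3/4 : ℝ) ≤ 2 := by
      have : (2:ℝ) ^ (3/4 : ℝ) ≤ 2 ^ (1 : ℝ) :=
        Real.rpow_le_rpow_of_exponent_le (by norm_num) (by norm_num)
      rwa [Real.rpow_one] at this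
    have h12 : 0 ≤ ll (b * gl h) ^ (3/4 : ℝ) := by
      have := ll_pos (b * gl h); positivity
    nlinarith
  have h9 : (b * gl h) ^ (7/4 : ℝ) = b ^ (7/4 : ℝ) * (h * l ^ (3/4 : ℝ)) := by
    unfold gl
    rw [← hL, ← hl, Real.mul_rpow hb.le (by positivity), Real.mul_rpow (by positivity) (by positivity),
      ← Real.rpow_mul hh.le, ← Real.rpow_mul (by linarith)]
    norm_num
  unfold psi
  rw [div_le_iff₀ (by have := ll_pos (b * gl h); positivity), h9]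
  calc b ^ (7/4 : ℝ) * (h * l ^ (3/4 : ℝ)) ≤ b ^ (7/4 : ℝ) * (h * (2 * ll (b * gl h) ^ (3/4 : ℝ))) := by
        gcongr
    _ = _ := by ring

/-- One piece: a positive proportion of it is disjoint from the slow set. -/
theorem piece {p : X} (hp : 0 < p.2) {K Λ c c' h1 : ℝ} (hK : 0 < K) (hΛ : 0 < Λ)
    (hft : ∀ᶠ n : ℕ in atTop,
      p.2 * (volume (FT p (yn K n) (2 * (1/2) ^ n))).toReal ≤ 1 / (n : ℝ) ^ 2)
    (hmod : ∃ h0 : ℝ, 0 < h0 ∧ ∀ h : ℝ, 0 < h → h < h0 → ∀ s t : unitInterval,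
      |(s : ℝ) - t| * p.2 ≤ h →
      dist (p.1 s) (p.1 t) ≤ Λ * (h ^ (4/7 : ℝ) * Real.log (1 / h) ^ (3/7 : ℝ)))
    (hc : 0 < c) (hlow : ∀ s t : unitInterval, s < t → ∀ η : ℝ, 0 < η →
      VG p.1 η s t (c * (p.2 * ((t : ℝ) - s))))
    (hc' : 0 < c') (hc'1 : 2 * c' ≤ 1) (hcc : 2 * (2 * c') ^ (7/4 : ℝ) ≤ c / 4) (hh1 : 0 < h1)
    {E : Set unitInterval} (hE : ∀ u ∈ E, ∀ h : ℝ, 0 < h → h < h1 → ∀ y : unitInterval,
      p.2 * |(y : ℝ) - u| ≤ h → dist (p.1 y) (p.1 u) ≤ c' * gl h)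
    {s t : unitInterval} (hst : s < t) : ∃ V : Set unitInterval, MeasurableSet V ∧
      V ⊆ Set.Ioc s t ∧ Disjoint E V ∧
      ENNReal.ofReal (c / (2 * (4 * (2 * K) ^ (7/4 : ℝ))) * ((t : ℝ) - s)) ≤ volume V := by
  classical
  have hst' : (s : ℝ) < t := hst
  obtain ⟨CK, hCK⟩ : ∃ CK : ℝ, CK = 4 * (2 * K) ^ (7/4 : ℝ) := ⟨_, rfl⟩
  have hCK0 : 0 < CK := by rw [hCK]; positivity
  have hpos : 0 < p.2 * ((t : ℝ) - s) := mul_pos hp (by linarith)
  obtain ⟨η1, hη1, hup⟩ := up_sub hp hK hΛ hft hmod (show 0 < c / 4 * (p.2 * ((t : ℝ) - s)) by positivity)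
  rw [← hCK] at hup
  obtain ⟨h2, hh2, hpg⟩ := (mem_nhdsGT_iff_exists_Ioo_subset.1 (psi_gl (b := 2 * c') (by positivity) hc'1))
  obtain ⟨η, hη⟩ : ∃ η : ℝ, η = min η1 (min h1 h2 / (2 * p.2)) := ⟨_, rfl⟩
  have hmin : 0 < min h1 h2 := lt_min hh1 hh2
  have hη0 : 0 < η := by rw [hη]; exact lt_min hη1 (by positivity)
  have hpη : p.2 * η < min h1 h2 := by
    have h3 : η ≤ min h1 h2 / (2 * p.2) := by rw [hη]; exact min_le_right _ _
    have h4 := mul_le_mul_of_nonneg_left h3 hp.le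
    have e : p.2 * (min h1 h2 / (2 * p.2)) = min h1 h2 / 2 := by field_simp
    rw [e] at h4
    linarith
  obtain ⟨N, τ, t1, t2, t3, t4, t5⟩ := hlow s t hst η hη0
  have hmono : ∀ i, τ i ≤ τ (i + 1) := fun i => t1 (Nat.le_succ i)
  obtain ⟨S, hS⟩ : ∃ S : Finset ℕ, S = (Finset.range N).filter
    (fun i => ¬ ∃ x ∈ E, x ∈ Set.Ioc (τ i) (τ (i + 1))) := ⟨_, rfl⟩
  have hSr : S ⊆ Finset.range N := by rw [hS]; exact Finset.filter_subset _ _
  have hmeet : ∀ i < N, (∃ x ∈ E, x ∈ Set.Ioc (τ i) (τ (i + 1))) →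
      psi (dist (p.1 (τ i)) (p.1 (τ (i + 1)))) ≤ c / 4 * (p.2 * ((τ (i + 1) : ℝ) - τ i)) := by
    rintro i hi ⟨x, hxE, hx1, hx2⟩
    have hx1' : (τ i : ℝ) < x := hx1
    have hx2' : (x : ℝ) ≤ τ (i + 1) := hx2
    obtain ⟨h, hh⟩ : ∃ h : ℝ, h = p.2 * ((τ (i + 1) : ℝ) - τ i) := ⟨_, rfl⟩
    have hh0 : 0 < h := by rw [hh]; exact mul_pos hp (by linarith)
    have hhη : h ≤ p.2 * η := by rw [hh]; exact mul_le_mul_of_nonneg_left (t4 i hi) hp.le
    have hhl : h < h1 := lt_of_le_of_lt hhη (lt_of_lt_of_le hpη (min_le_left _ _))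
    have hhl2 : h < h2 := lt_of_le_of_lt hhη (lt_of_lt_of_le hpη (min_le_right _ _))
    have g1 := hE x hxE h hh0 hhl (τ i) (by
      rw [abs_sub_comm, abs_of_nonneg (by linarith), hh]
      exact mul_le_mul_of_nonneg_left (by linarith) hp.le)
    have g2 := hE x hxE h hh0 hhl (τ (i + 1)) (by
      rw [abs_of_nonneg (by linarith), hh]
      exact mul_le_mul_of_nonneg_left (by linarith) hp.le)
    obtain ⟨g3, g4⟩ := hpg ⟨hh0, hhl2⟩
    have g5 : dist (p.1 (τ i)) (p.1 (τ (i + 1))) ≤ 2 * c' * gl h := by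
      have := dist_triangle_right (p.1 (τ i)) (p.1 (τ (i + 1))) (p.1 x)
      linarith
    refine (psi_mono dist_nonneg g5 g3).trans (g4.trans ?_)
    rw [← hh]
    exact mul_le_mul_of_nonneg_right hcc hh0.le
  have hsum1 : ∑ i ∈ Finset.range N, (p.2 * ((τ (i + 1) : ℝ) - τ i)) = p.2 * ((t : ℝ) - s) := by
    rw [← Finset.mul_sum, Finset.sum_range_sub (fun i => ((τ i : unitInterval) : ℝ)) N, t2, t3]
  have hsum : ∑ i ∈ Finset.range N, psi (dist (p.1 (τ i)) (p.1 (τ (i + 1)))) ≤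
      ∑ i ∈ S, psi (dist (p.1 (τ i)) (p.1 (τ (i + 1)))) + c / 4 * (p.2 * ((t : ℝ) - s)) := by
    rw [← Finset.sum_filter_add_sum_filter_not (Finset.range N)
      (fun i => ¬ ∃ x ∈ E, x ∈ Set.Ioc (τ i) (τ (i + 1)))
      (fun i => psi (dist (p.1 (τ i)) (p.1 (τ (i + 1))))), ← hS]
    refine add_le_add le_rfl ?_
    rw [← hsum1, Finset.mul_sum]
    refine (Finset.sum_le_sum fun i hi => ?_).trans
      (Finset.sum_le_sum_of_subset_of_nonneg (Finset.filter_subset _ _) fun i _ _ => ?_)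
    · rw [Finset.mem_filter, not_not, Finset.mem_range] at hi
      exact hmeet i hi.1 hi.2
    · have : (τ i : ℝ) ≤ τ (i + 1) := hmono i
      have h3 : 0 ≤ p.2 * ((τ (i + 1) : ℝ) - τ i) := mul_nonneg hp.le (by linarith)
      positivity
  have hupS := hup N τ t1 (fun i hi => (t4 i hi).trans (by rw [hη]; exact min_le_left _ _)) S hSr
  obtain ⟨Ls, hLs⟩ : ∃ Ls : ℝ, Ls = ∑ i ∈ S, ((τ (i + 1) : ℝ) - τ i) := ⟨_, rfl⟩
  rw [← hLs] at hupS
  have hL : c / (2 * CK) * ((t : ℝ) - s) ≤ Ls := by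
    have h3 : c / 2 * (p.2 * ((t : ℝ) - s)) ≤ CK * (p.2 * Ls) := by linarith
    have h4 : p.2 * (c / 2 * ((t : ℝ) - s)) ≤ p.2 * (CK * Ls) := by linarith
    have h5 := le_of_mul_le_mul_left h4 hp
    rw [div_mul_eq_mul_div, div_le_iff₀ (by positivity)]
    linarith
  refine ⟨⋃ i ∈ S, Set.Ioc (τ i) (τ (i + 1)), ?_, ?_, ?_, ?_⟩
  · exact Finset.measurableSet_biUnion _ fun i _ => measurableSet_Ioc
  · intro x hx
    simp only [Set.mem_iUnion] at hx
    obtain ⟨i, hi, hx1, hx2⟩ := hx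
    have hiN := Finset.mem_range.1 (hSr hi)
    exact ⟨lt_of_le_of_lt (t2 ▸ t1 (Nat.zero_le i)) hx1, hx2.trans (t3 ▸ t1 (by omega))⟩
  · rw [Set.disjoint_left]
    intro x hxE hx
    simp only [Set.mem_iUnion] at hx
    obtain ⟨i, hi, hx⟩ := hx
    rw [hS, Finset.mem_filter] at hi
    exact hi.2 ⟨x, hxE, hx⟩
  · have hdis : Set.PairwiseDisjoint (↑S : Set ℕ) (fun i => Set.Ioc (τ i) (τ (i + 1))) :=
      fun i _ j _ hij => t1.pairwise_disjoint_on_Ioc_succ hij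
    rw [measure_biUnion_finset hdis (fun i _ => measurableSet_Ioc), ← hCK]
    refine (ENNReal.ofReal_le_ofReal hL).trans ?_
    rw [hLs, ENNReal.ofReal_sum_of_nonneg (fun i _ => by
      have : (τ i : ℝ) ≤ τ (i + 1) := hmono i
      linarith)]
    refine le_of_eq (Finset.sum_congr rfl fun i _ => ?_)
    rw [unitInterval.volume_Ioc]

end Pool.Agent.V11321.EV
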