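import Pool.Agent.V11321.EV.Lil

/-!
The law of the iterated logarithm at almost every time.
-/

set_option autoImplicit false
set_option linter.unusedVariables false

namespace Pool.Agent.V11321.EV

open H984N Pool.Agent.Y41.EV
open MeasureTheory Filter Topology
open scoped ENNReal NNReal

theorem slow_null {E : Set unitInterval} {a : ℝ} (ha : 0 < a)
    (hpiece : ∀ s t : unitInterval, s < t → ∃ V : Set unitInterval, MeasurableSet V ∧
      V ⊆ Set.Ioc s t ∧ Disjoint E V ∧ ENNReal.ofReal (a * ((t : ℝ) - s)) ≤ volume V) :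
    volume E = 0 := by
  classical
  by_contra hne
  have hfin : volume E ≠ ∞ := measure_ne_top _ _
  obtain ⟨M, hM⟩ : ∃ M : ℝ, M = (volume E).toReal := ⟨_, rfl⟩
  have hM0 : 0 < M := by rw [hM]; exact ENNReal.toReal_pos hne hfin
  have hEM : volume E = ENNReal.ofReal M := by rw [hM, ENNReal.ofReal_toReal hfin]
  obtain ⟨O, hEO, hO, hOlt⟩ := Set.exists_isOpen_lt_add E hfin
    (show ENNReal.ofReal (a * (M / 2)) ≠ 0 by
      rw [Ne, ENNReal.ofReal_eq_zero, not_le]; positivity)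
  have hOM : ENNReal.ofReal (M / 2) < volume O := by
    refine lt_of_lt_of_le ?_ (measure_mono hEO)
    rw [hEM, ENNReal.ofReal_lt_ofReal_iff hM0]
    linarith
  obtain ⟨Kc, hKO, hKc, hKM⟩ := hO.exists_lt_isCompact hOM
  obtain ⟨ρ, hρ, hρO⟩ := hKc.exists_thickening_subset_open hO hKO
  obtain ⟨n, hn⟩ := exists_nat_gt (1 / ρ)
  have hn0 : (0 : ℝ) < n := lt_trans (by positivity) hn
  obtain ⟨d, hd⟩ : ∃ d : ℝ, d = 1 / (n : ℝ) := ⟨_, rfl⟩
  have hd0 : 0 < d := by rw [hd]; positivity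
  have hdρ : d < ρ := by
    rw [hd, div_lt_iff₀ hn0]
    rw [div_lt_iff₀ hρ] at hn
    linarith
  have hnd : n * d = 1 := by rw [hd]; field_simp
  obtain ⟨x, hx⟩ : ∃ x : ℕ → unitInterval, ∀ i, i ≤ n → (x i : ℝ) = i * d := by
    refine ⟨fun i => Set.projIcc 0 1 zero_le_one (i * d), fun i hi => ?_⟩
    have h1 : (i : ℝ) ≤ n := by exact_mod_cast hi
    have h2 : (i : ℝ) * d ≤ n * d := mul_le_mul_of_nonneg_right h1 hd0.le
    have h5 : (i : ℝ) * d ∈ Set.Icc (0:ℝ) 1 := ⟨by positivity, by linarith⟩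
    show ((Set.projIcc 0 1 zero_le_one ((i : ℝ) * d) : unitInterval) : ℝ) = _
    rw [Set.projIcc_of_mem zero_le_one h5]
  have hlt' : ∀ i < n, x i < x (i + 1) := by
    intro i hi
    show (x i : ℝ) < x (i + 1)
    rw [hx i hi.le, hx (i + 1) hi]
    push_cast
    linarith
  have hlen : ∀ i < n, (x (i + 1) : ℝ) - x i = d := by
    intro i hi
    rw [hx i hi.le, hx (i + 1) hi]
    push_cast; ring
  obtain ⟨G, hG⟩ : ∃ G : Finset ℕ, G = (Finset.range n).filter
    (fun i => ∃ u ∈ Kc, u ∈ Set.Ioc (x i) (x (i + 1))) := ⟨_, rfl⟩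
  have hGn : ∀ i ∈ G, i < n := by
    intro i hi
    rw [hG, Finset.mem_filter, Finset.mem_range] at hi
    exact hi.1
  have hin : ∀ i ∈ G, Set.Ioc (x i) (x (i + 1)) ⊆ O := by
    intro i hi u hu
    have hin := hGn i hi
    rw [hG, Finset.mem_filter] at hi
    obtain ⟨-, v, hv, hv2⟩ := hi
    apply hρO
    rw [Metric.mem_thickening_iff]
    refine ⟨v, hv, ?_⟩
    have h1 : (x i : ℝ) < u := hu.1
    have h2 : (u : ℝ) ≤ x (i + 1) := hu.2
    have h3 : (x i : ℝ) < v := hv2.1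
    have h4 : (v : ℝ) ≤ x (i + 1) := hv2.2
    have h5 := hlen i hin
    rw [Subtype.dist_eq, Real.dist_eq, abs_lt]
    constructor <;> linarith
  have hcov : volume Kc ≤ ENNReal.ofReal (G.card * d) := by
    have hsub : Kc ⊆ (⋃ i ∈ G, Set.Ioc (x i) (x (i + 1))) ∪ {0} := by
      intro u hu
      rcases u.2.1.eq_or_lt with h0 | h0
      · right
        exact Subtype.ext h0.symm
      left
      obtain ⟨y, hy⟩ : ∃ y : ℝ, y = (u : ℝ) / d := ⟨_, rfl⟩
      have hy0 : 0 < y := by rw [hy]; exact div_pos h0 hd0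
      have hyd : y * d = (u : ℝ) := by rw [hy]; field_simp
      have hyn : y ≤ n := by
        rw [hy, div_le_iff₀ hd0, hnd]; exact u.2.2
      have hc1 : 1 ≤ ⌈y⌉₊ := Nat.one_le_ceil_iff.2 hy0
      have hc2 : ⌈y⌉₊ ≤ n := Nat.ceil_le.2 hyn
      have hc3 : y ≤ ⌈y⌉₊ := Nat.le_ceil y
      have hc4 : (⌈y⌉₊ : ℝ) < y + 1 := Nat.ceil_lt_add_one hy0.le
      obtain ⟨i, hi⟩ : ∃ i : ℕ, i + 1 = ⌈y⌉₊ := ⟨⌈y⌉₊ - 1, by omega⟩
      have hi' : (i : ℝ) + 1 = (⌈y⌉₊ : ℝ) := by exact_mod_cast hi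
      have hmem : u ∈ Set.Ioc (x i) (x (i + 1)) := by
        constructor
        · show (x i : ℝ) < u
          rw [hx i (by omega)]
          have : (i : ℝ) * d < y * d := mul_lt_mul_of_pos_right (by linarith) hd0
          linarith
        · show (u : ℝ) ≤ x (i + 1)
          rw [hx (i + 1) (by omega)]
          have : y * d ≤ ((i : ℝ) + 1) * d := mul_le_mul_of_nonneg_right (by linarith) hd0.le
          push_cast
          linarith
      simp only [Set.mem_iUnion]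
      refine ⟨i, ?_, hmem⟩
      rw [hG, Finset.mem_filter, Finset.mem_range]
      exact ⟨by omega, u, hu, hmem⟩
    refine (measure_mono hsub).trans ((measure_union_le _ _).trans ?_)
    rw [measure_singleton, add_zero]
    refine (measure_biUnion_finset_le _ _).trans (le_of_eq ?_)
    have e : ∀ i ∈ G, volume (Set.Ioc (x i) (x (i + 1))) = ENNReal.ofReal d := by
      intro i hi
      rw [unitInterval.volume_Ioc, hlen i (hGn i hi)]
    rw [Finset.sum_congr rfl e, Finset.sum_const, nsmul_eq_mul, ENNReal.ofReal_mul (Nat.cast_nonneg _),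
      ENNReal.ofReal_natCast]
  have hG2 : M / 2 < G.card * d := by
    have h1 := lt_of_lt_of_le hKM hcov
    rw [ENNReal.ofReal_lt_ofReal_iff_of_nonneg (by positivity)] at h1
    exact h1
  have hV : ∀ i ∈ G, ∃ V : Set unitInterval, MeasurableSet V ∧
      V ⊆ Set.Ioc (x i) (x (i + 1)) ∧ Disjoint E V ∧ ENNReal.ofReal (a * d) ≤ volume V := by
    intro i hi
    have := hpiece (x i) (x (i + 1)) (hlt' i (hGn i hi))
    rwa [hlen i (hGn i hi)] at this
  choose! V v1 v2 v3 v4 using hV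
  obtain ⟨U, hU⟩ : ∃ U : Set unitInterval, U = ⋃ i ∈ G, V i := ⟨_, rfl⟩
  have hUm : MeasurableSet U := by
    rw [hU]; exact Finset.measurableSet_biUnion _ fun i hi => v1 i hi
  have hUO : U ⊆ O := by
    rw [hU]
    exact Set.iUnion₂_subset fun i hi => (v2 i hi).trans (hin i hi)
  have hUE : Disjoint E U := by
    rw [hU, Set.disjoint_iUnion₂_right]
    exact fun i hi => v3 i hi
  have hmono' : ∀ i j, i < j → j ≤ n → x (i + 1) ≤ x j := by
    intro i j hij hj
    show (x (i + 1) : ℝ) ≤ x j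
    rw [hx (i + 1) (by omega), hx j hj]
    have : ((i + 1 : ℕ) : ℝ) ≤ j := by exact_mod_cast hij
    exact mul_le_mul_of_nonneg_right this hd0.le
  have hdis : Set.PairwiseDisjoint (↑G : Set ℕ) V := by
    intro i hi j hj hij
    have hi' := hGn i hi
    have hj' := hGn j hj
    rw [Function.onFun, Set.disjoint_left]
    intro u hu1 hu2
    have a1 := v2 i hi hu1
    have a2 := v2 j hj hu2
    rcases lt_or_gt_of_ne hij with h | h
    · exact absurd (a2.1.trans_le (a1.2.trans (hmono' i j h hj'.le))) (lt_irrefl _)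
    · exact absurd (a1.1.trans_le (a2.2.trans (hmono' j i h hi'.le))) (lt_irrefl _)
  have hUv : ENNReal.ofReal (a * (M / 2)) ≤ volume U := by
    rw [hU, measure_biUnion_finset hdis (fun i hi => v1 i hi)]
    refine le_trans ?_ (Finset.sum_le_sum fun i hi => v4 i hi)
    rw [Finset.sum_const, nsmul_eq_mul, ← ENNReal.ofReal_natCast, ← ENNReal.ofReal_mul (Nat.cast_nonneg _)]
    refine ENNReal.ofReal_le_ofReal ?_
    nlinarith
  have h1 : volume E + volume U ≤ volume O := by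
    rw [← measure_union hUE hUm]
    exact measure_mono (Set.union_subset hEO hUO)
  have h2 : volume E + volume U < volume E + ENNReal.ofReal (a * (M / 2)) := lt_of_le_of_lt h1 hOlt
  exact absurd (lt_of_add_lt_add_left h2) (not_lt.2 hUv)

theorem lil_low {p : X} (hp : 0 < p.2) {K Λ c c' : ℝ} (hK : 0 < K) (hΛ : 0 < Λ)
    (hft : ∀ᶠ n : ℕ in atTop,
      p.2 * (volume (FT p (yn K n) (2 * (1/2) ^ n))).toReal ≤ 1 / (n : ℝ) ^ 2)
    (hmod : ∃ h0 : ℝ, 0 < h0 ∧ ∀ h : ℝ, 0 < h → h < h0 → ∀ s t : unitInterval,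
      |(s : ℝ) - t| * p.2 ≤ h →
      dist (p.1 s) (p.1 t) ≤ Λ * (h ^ (4/7 : ℝ) * Real.log (1 / h) ^ (3/7 : ℝ)))
    (hc : 0 < c) (hlow : ∀ s t : unitInterval, s < t → ∀ η : ℝ, 0 < η →
      VG p.1 η s t (c * (p.2 * ((t : ℝ) - s))))
    (hc' : 0 < c') (hc'1 : 2 * c' ≤ 1) (hcc : 2 * (2 * c') ^ (7/4 : ℝ) ≤ c / 4) :
    ∀ᵐ u : unitInterval, ∃ᶠ h : ℝ in 𝓝[>] 0, ∃ y : unitInterval, p.2 * |(y : ℝ) - u| ≤ h ∧
      c' * gl h < dist (p.1 y) (p.1 u) := by
  obtain ⟨E, hE⟩ : ∃ E : ℕ → Set unitInterval, E = fun m : ℕ => {u : unitInterval | ∀ h : ℝ, 0 < h →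
    h < 1 / ((m : ℝ) + 1) → ∀ y : unitInterval,
      p.2 * |(y : ℝ) - u| ≤ h → dist (p.1 y) (p.1 u) ≤ c' * gl h} := ⟨_, rfl⟩
  have h0 : ∀ m, volume (E m) = 0 := by
    intro m
    refine slow_null (a := c / (2 * (4 * (2 * K) ^ (7/4 : ℝ)))) (by positivity) ?_
    intro s t hst
    refine piece hp hK hΛ hft hmod hc hlow hc' hc'1 hcc (h1 := 1 / ((m : ℝ) + 1)) (by positivity)
      ?_ hst
    intro u hu
    rw [hE] at hu
    exact hu
  rw [ae_iff]
  refine measure_mono_null ?_ (measure_iUnion_null h0)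
  intro u hu
  simp only [Set.mem_ofPred_eq, not_frequently, not_exists, not_and, not_lt] at hu
  obtain ⟨ρ, hρ, hρ2⟩ := mem_nhdsGT_iff_exists_Ioo_subset.1 hu
  obtain ⟨m, hm⟩ := exists_nat_one_div_lt (show (0:ℝ) < ρ from hρ)
  rw [Set.mem_iUnion]
  refine ⟨m, ?_⟩
  rw [hE]
  intro h hh hlt y hy
  exact hρ2 ⟨hh, hlt.trans hm⟩ y hy

/-- Upper bound at almost every time. -/
theorem lil_up {p : X} (hp : 0 < p.2) {K : ℝ} (hK : 0 < K)
    (hft : ∀ᶠ n : ℕ in atTop,
      p.2 * (volume (FT p (yn K n) (2 * (1/2) ^ n))).toReal ≤ 1 / (n : ℝ) ^ 2) :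
    ∀ᵐ u : unitInterval, ∀ᶠ h : ℝ in 𝓝[>] 0, ∀ y : unitInterval, p.2 * |(y : ℝ) - u| ≤ h →
      dist (p.1 y) (p.1 u) ≤ 4 * K * gl h := by
  obtain ⟨n1, hn1⟩ := eventually_atTop.1 hft
  have hsum : ∑' n : ℕ, volume (FT p (yn K (n + n1)) (2 * (1/2) ^ (n + n1))) ≠ ∞ := by
    have h1 : ∀ n : ℕ, volume (FT p (yn K (n + n1)) (2 * (1/2) ^ (n + n1))) ≤
        ENNReal.ofReal (1 / p.2 * (1 / ((n + n1 : ℕ) : ℝ) ^ 2)) := by
      intro n
      have h2 := hn1 (n + n1) (by omega)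
      rw [ENNReal.le_ofReal_iff_toReal_le (measure_ne_top _ _) (by positivity), one_div p.2,
        inv_mul_eq_div, le_div_iff₀ hp]
      linarith
    refine ne_top_of_le_ne_top ?_ (ENNReal.tsum_le_tsum h1)
    have hs : Summable (fun n : ℕ => 1 / p.2 * (1 / ((n + n1 : ℕ) : ℝ) ^ 2)) := by
      refine Summable.mul_left _ ?_
      exact (summable_nat_add_iff n1).mpr (Real.summable_one_div_nat_pow.mpr (by norm_num))
    exact hs.tsum_ofReal_ne_top
  have hbc := ae_eventually_notMem hsum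
  filter_upwards [hbc] with u hu
  obtain ⟨m, hm⟩ := eventually_atTop.1 hu
  filter_upwards [self_mem_nhdsWithin, loglog_tend.eventually (eventually_ge_atTop 1),
    log_tend'.eventually (eventually_ge_atTop 16),
    mem_nhdsWithin_of_mem_nhds (gt_mem_nhds (show (0:ℝ) < (1/2) ^ (m + n1 + 2) by positivity))]
    with h h0 h1 h2 h3 y hy
  have hh : (0:ℝ) < h := h0
  have h3' : h < (1/2) ^ (m + n1 + 2) := h3
  have hle1 : h ≤ 1 := h3'.le.trans (pow_le_one₀ (by norm_num) (by norm_num))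
  obtain ⟨n, hn2, hn3⟩ := exists_nat_pow_near_of_lt_one hh hle1
    (show (0:ℝ) < 1/2 by norm_num) (by norm_num)
  have hnm : m + n1 ≤ n := by
    by_contra hcon
    push Not at hcon
    have : ((1:ℝ)/2) ^ (m + n1 + 2) ≤ (1/2) ^ (n + 1) :=
      pow_le_pow_of_le_one (by norm_num) (by norm_num) (by omega)
    linarith
  have hnot := hm (n - n1) (by omega)
  rw [show n - n1 + n1 = n by omega] at hnot
  have hd : dist (p.1 y) (p.1 u) ≤ yn K n := by
    by_contra hcon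
    push Not at hcon
    apply hnot
    refine ⟨y, ?_, hcon⟩
    have : (0:ℝ) < (1/2) ^ n := by positivity
    linarith
  refine hd.trans ?_
  obtain ⟨L, hL⟩ : ∃ L : ℝ, L = Real.log (1 / h) := ⟨_, rfl⟩
  rw [← hL] at h1 h2
  have hsucc : ((1:ℝ)/2) ^ n = 2 * (1/2) ^ (n + 1) := by rw [pow_succ]; ring
  have e1 : (((1:ℝ)/2) ^ n) ^ (4/7 : ℝ) ≤ 2 * h ^ (4/7 : ℝ) := by
    have h5 : (((1:ℝ)/2) ^ n) ^ (4/7 : ℝ) ≤ (2 * h) ^ (4/7 : ℝ) :=
      Real.rpow_le_rpow (by positivity) (by linarith) (by norm_num)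
    rw [Real.mul_rpow (by norm_num) hh.le] at h5
    have h10 : (2:ℝ) ^ (4/7 : ℝ) ≤ 2 := by
      have : (2:ℝ) ^ (4/7 : ℝ) ≤ 2 ^ (1 : ℝ) :=
        Real.rpow_le_rpow_of_exponent_le (by norm_num) (by norm_num)
      rwa [Real.rpow_one] at this
    exact h5.trans (mul_le_mul_of_nonneg_right h10 (by positivity))
  have hnL : (n : ℝ) ≤ 2 * L := by
    have h6 : Real.log (1 / ((1:ℝ)/2) ^ n) ≤ Real.log (1 / h) :=
      Real.log_le_log (by positivity) (one_div_le_one_div_of_le hh hn3)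
    rw [one_div, ← inv_pow, Real.log_pow, ← hL] at h6
    norm_num at h6
    have := Real.log_two_gt_d9
    have hnn : (0:ℝ) ≤ n := Nat.cast_nonneg _
    nlinarith
  have e2 : Real.log n ^ (3/7 : ℝ) ≤ 2 * Real.log L ^ (3/7 : ℝ) := by
    have hn0 : 0 ≤ Real.log n := Real.log_natCast_nonneg n
    have h7 : Real.log n ≤ 2 * Real.log L := by
      rcases Nat.eq_zero_or_pos n with hz | hz
      · rw [hz]; simp only [Nat.cast_zero, Real.log_zero]; linarith
      have h8 : Real.log n ≤ Real.log (2 * L) := Real.log_le_log (by exact_mod_cast hz) hnL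
      rw [Real.log_mul (by norm_num) (by linarith)] at h8
      have h9 : Real.log 2 ≤ Real.log L := Real.log_le_log (by norm_num) (by linarith)
      linarith
    have h8 := Real.rpow_le_rpow hn0 h7 (show (0:ℝ) ≤ 3/7 by norm_num)
    rw [Real.mul_rpow (by norm_num) (by linarith)] at h8
    have h10 : (2:ℝ) ^ (3/7 : ℝ) ≤ 2 := by
      have : (2:ℝ) ^ (3/7 : ℝ) ≤ 2 ^ (1 : ℝ) :=
        Real.rpow_le_rpow_of_exponent_le (by norm_num) (by norm_num)
      rwa [Real.rpow_one] at this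
    exact h8.trans (mul_le_mul_of_nonneg_right h10 (by
      have : 0 ≤ Real.log L := by linarith
      positivity))
  unfold yn gl
  rw [← hL]
  have hn0 : 0 ≤ Real.log n := Real.log_natCast_nonneg n
  have hL0 : 0 ≤ Real.log L := by linarith
  calc K * ((((1:ℝ)/2) ^ n) ^ (4/7 : ℝ) * Real.log n ^ (3/7 : ℝ))
      ≤ K * ((2 * h ^ (4/7 : ℝ)) * (2 * Real.log L ^ (3/7 : ℝ))) := by gcongr
    _ = _ := by ring

end Pool.Agent.V11321.EV
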