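import Pool.Agent.V11321.EV.Top
import Pool.Agent.V11321.EV.Lil2

/-!
The law of the iterated logarithm at almost every time of the limits.
-/

set_option autoImplicit false
set_option linter.unusedVariables false

namespace Pool.Agent.V11321.EV

open H974 Finset H342P H984P H984N Pool.Agent.Y995.FS Pool.Agent.Y995.HG Pool.Agent.Y41.EV
open MeasureTheory Filter Topology
open scoped ENNReal NNReal

theorem lil_top : ∃ c C : ℝ, 0 < c ∧ 0 < C ∧ ∀ R : Rect,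
    (∀ δ : ℕ → ℝ, (∀ i, 0 < δ i) → Tendsto δ atTop (𝓝 0) →
      ∃ φ : ℕ → ℕ, StrictMono φ ∧ ∃ μ : ProbabilityMeasure X,
        Tendsto (fun i => R.law (δ (φ i))) atTop (𝓝 μ)) ∧
    ∀ δ : ℕ → ℝ, (∀ i, 0 < δ i) → Tendsto δ atTop (𝓝 0) → ∀ μ : ProbabilityMeasure X,
      Tendsto (fun i => R.law (δ i)) atTop (𝓝 μ) →
      ∀ᵐ p ∂(μ : Measure X), 0 < p.2 ∧ ∀ᵐ u : unitInterval,
        (∃ᶠ h : ℝ in 𝓝[>] 0, ∃ y : unitInterval, p.2 * |(y : ℝ) - u| ≤ h ∧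
          c * gl h < dist (p.1 y) (p.1 u)) ∧
        ∀ᶠ h : ℝ in 𝓝[>] 0, ∀ y : unitInterval, p.2 * |(y : ℝ) - u| ≤ h →
          dist (p.1 y) (p.1 u) ≤ C * gl h := by
  obtain ⟨c0, C0, hc0, hC0, hvar⟩ := exact_var
  obtain ⟨⟨c, hc, hL⟩, ⟨C, hC, hU⟩, C2, hC2, hA⟩ := Pool.Agent.Y985.ME.inputs
  have hfm : FM := Pool.Agent.Y490.EV.fm2 Pool.Agent.Y941.EV.t_FM1 Pool.Agent.Y490.EV.fm2p
    Pool.Agent.Y985.ME.s_blk Pool.Agent.Y985.ME.s_fm C hC hU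
  obtain ⟨a, B, ha, hB, hftl⟩ := Pool.Agent.Y858.EV.ftlat hfm Pool.Agent.Y988.EV.ftm
  obtain ⟨K, hKd⟩ : ∃ K : ℝ, K = (4 * 2 ^ (4/3 : ℝ) / a) ^ (3/7 : ℝ) := ⟨_, rfl⟩
  have hK : 0 < K := by rw [hKd]; positivity
  have haK : a * K ^ (7/3 : ℝ) / 2 ^ (4/3 : ℝ) = 4 := by
    rw [hKd, ← Real.rpow_mul (by positivity)]
    norm_num
    field_simp
  obtain ⟨q, hq⟩ : ∃ q : ℝ, q = min 1 (c0 / 8) := ⟨_, rfl⟩
  have hq0 : 0 < q := by rw [hq]; exact lt_min one_pos (by positivity)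
  have hq1 : q ≤ 1 := by rw [hq]; exact min_le_left _ _
  have hq2 : q ≤ c0 / 8 := by rw [hq]; exact min_le_right _ _
  have hcc : 2 * (2 * (q / 2)) ^ (7/4 : ℝ) ≤ c0 / 4 := by
    have e : 2 * (q / 2) = q := by ring
    rw [e]
    have h1 : q ^ (7/4 : ℝ) ≤ q := by
      have := Real.rpow_le_rpow_of_exponent_ge hq0 hq1 (show (1:ℝ) ≤ 7/4 by norm_num)
      rwa [Real.rpow_one] at this
    linarith
  refine ⟨q / 2, 4 * K, by positivity, by positivity, fun R => ⟨(hvar R).1, ?_⟩⟩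
  obtain ⟨A2, y0, hA2, hy0, hftR⟩ := hftl R
  obtain ⟨Λ, hΛ, hup⟩ := Pool.Agent.Y985.ME.mod_up R
  intro δ hδ hlim μ hμ
  filter_upwards [(hvar R).2 δ hδ hlim μ hμ, ft_as ha hB hA2 hy0 hftR hK haK hδ hlim hμ,
    hup δ hδ hlim μ hμ] with p g1 g2 g3
  refine ⟨g1.1, ?_⟩
  filter_upwards [lil_low g1.1 hK hΛ g2 g3 hc0 (fun s t hst => (g1.2 s t hst).1)
    (show 0 < q / 2 by positivity) (by linarith) hcc, lil_up g1.1 hK g2] with u k1 k2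
  exact ⟨k1, k2⟩

end Pool.Agent.V11321.EV
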