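import Pool.Agent.V11321.EV.LowAll
import Pool.Agent.Y995.HG.Sc

/-!
The scales.
-/

set_option autoImplicit false
set_option linter.unusedVariables false

namespace Pool.Agent.V11321.EV

open Pool.Agent.Y995.HG
open MeasureTheory Filter Topology
open Pool.Agent.Y41.EV (ll psi ll_pos psi_nonneg)

/-- number of the links of the fast pairs -/
noncomputable def kt (K3 : ℝ) (i : ℕ) : ℕ := kq K3 i ^ 2

/-- duration of the fast pairs -/
noncomputable def tu (θ K3 : ℝ) (i : ℕ) : ℝ :=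
  θ * (((kt K3 i : ℕ) : ℝ) ^ (-(3/4) : ℝ) * ww i ^ (7/4 : ℝ))

/-- duration of the pieces with `NN i` fast pairs -/
noncomputable def el (A0 K3 : ℝ) (i : ℕ) : ℝ :=
  A0 * ((ww i * Real.exp (2 * (K3 * ((kt K3 i : ℕ) : ℝ)))) ^ (7/4 : ℝ) * NN i)

theorem kt_cast (K3 : ℝ) (i : ℕ) : ((kt K3 i : ℕ) : ℝ) = ((kq K3 i : ℕ) : ℝ) ^ 2 := by
  unfold kt; push_cast; ring

theorem el_eq {A0 K3 : ℝ} {i : ℕ} : el A0 K3 i = A0 * ((1/2) ^ (7 * i ^ 2) *
    Real.exp (2 * (K3 * ((kq K3 i : ℕ) : ℝ) ^ 2)) ^ (7/4 : ℝ) * NN i) := by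
  unfold el
  rw [kt_cast, Real.mul_rpow (ww_pos i).le (Real.exp_nonneg _), ww_pow]

theorem el_pos {A0 K3 : ℝ} (hA : 0 < A0) {i : ℕ} (hN : 1 ≤ NN i) : 0 < el A0 K3 i := by
  rw [el_eq]
  have : (0:ℝ) < NN i := by exact_mod_cast hN
  positivity

theorem el_le {A0 K3 : ℝ} (hA : 0 < A0) (hK : 1 ≤ K3) {i : ℕ} (hi : 1 ≤ i) :
    el A0 K3 i ≤ A0 * ((1/2) ^ (7 * i ^ 2) * (i * 2 ^ i)) := by
  rw [el_eq]
  have hi' : (1:ℝ) ≤ i := by exact_mod_cast hi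
  have h1 := ex_le hK hi
  have h2 : (i : ℝ) ^ (1/4 : ℝ) ≤ i := by
    have := Real.rpow_le_rpow_of_exponent_le hi' (show (1/4 : ℝ) ≤ 1 by norm_num)
    rwa [Real.rpow_one] at this
  have h3 : (NN i : ℝ) ≤ 2 ^ i := by
    have h4 := NN_le i
    have h5 : (0:ℝ) ≤ ((Nat.sqrt i : ℕ) : ℝ) := Nat.cast_nonneg _
    have h6 : (0:ℝ) ≤ NN i := Nat.cast_nonneg _
    nlinarith
  refine mul_le_mul_of_nonneg_left ?_ hA.le
  rw [mul_assoc]
  exact mul_le_mul_of_nonneg_left (mul_le_mul (h1.trans h2) h3 (Nat.cast_nonneg _) (by positivity))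
    (by positivity)

theorem pow_small {i : ℕ} (hi : 1 ≤ i) : ((1:ℝ)/2) ^ (7 * i ^ 2) ≤ (1/2) ^ (3 * i) :=
  pow_le_pow_of_le_one (by norm_num) (by norm_num) (by nlinarith)

theorem el_tend {A0 K3 : ℝ} (hA : 0 < A0) (hK : 1 ≤ K3) : Tendsto (el A0 K3) atTop (𝓝 0) := by
  have h1 : Tendsto (fun i : ℕ => A0 * ((1:ℝ)/2) ^ i) atTop (𝓝 (A0 * 0)) :=
    half_tend.const_mul A0
  rw [mul_zero] at h1
  refine squeeze_zero' (Eventually.of_forall fun i => ?_) ?_ h1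
  · rw [el_eq]; positivity
  · filter_upwards [eventually_ge_atTop 1] with i hi
    refine (el_le hA hK hi).trans (mul_le_mul_of_nonneg_left ?_ hA.le)
    calc ((1:ℝ)/2) ^ (7 * i ^ 2) * (i * 2 ^ i) ≤ (1/2) ^ (3 * i) * (i * 2 ^ i) :=
          mul_le_mul_of_nonneg_right (pow_small hi) (by positivity)
      _ = (i * (1/2) ^ i) * (1/2) ^ i * ((1/2) ^ i * 2 ^ i) := by
          rw [show 3 * i = i + i + i by ring, pow_add, pow_add]; ring
      _ = (i * (1/2) ^ i) * (1/2) ^ i := by rw [← mul_pow]; norm_num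
      _ ≤ 1 * (1/2) ^ i := mul_le_mul_of_nonneg_right (i_half i) (by positivity)
      _ = _ := one_mul _

theorem tu_nonneg {θ K3 : ℝ} (hθ : 0 < θ) (i : ℕ) : 0 ≤ tu θ K3 i := by
  unfold tu
  have := ww_pos i
  positivity

theorem tu_tend {θ K3 : ℝ} (hθ : 0 < θ) (hK : 1 ≤ K3) : Tendsto (tu θ K3) atTop (𝓝 0) := by
  have h1 : Tendsto (fun i : ℕ => θ * ((1:ℝ)/2) ^ i) atTop (𝓝 (θ * 0)) :=
    half_tend.const_mul θ
  rw [mul_zero] at h1
  refine squeeze_zero' (Eventually.of_forall fun i => tu_nonneg hθ i) ?_ h1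
  filter_upwards [eventually_ge_atTop 1, (kq_tend hK).eventually (eventually_ge_atTop 1)] with i hi hk
  unfold tu
  refine mul_le_mul_of_nonneg_left ?_ hθ.le
  have hk1 : (1:ℝ) ≤ ((kt K3 i : ℕ) : ℝ) := by
    rw [kt_cast]
    have : (1:ℝ) ≤ ((kq K3 i : ℕ) : ℝ) := by exact_mod_cast hk
    nlinarith
  have h2 : ((kt K3 i : ℕ) : ℝ) ^ (-(3/4) : ℝ) ≤ 1 :=
    Real.rpow_le_one_of_one_le_of_nonpos hk1 (by norm_num)
  rw [ww_pow]
  have h3 : ((1:ℝ)/2) ^ (7 * i ^ 2) ≤ (1/2) ^ i :=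
    pow_le_pow_of_le_one (by norm_num) (by norm_num) (by nlinarith)
  calc ((kt K3 i : ℕ) : ℝ) ^ (-(3/4) : ℝ) * (1/2) ^ (7 * i ^ 2) ≤ 1 * (1/2) ^ i :=
        mul_le_mul h2 h3 (by positivity) (by norm_num)
    _ = _ := one_mul _

theorem ll_ww {i : ℕ} (hi : 36 ≤ i) : ll (ww i) ≤ 3 * Real.log i ∧ 3 * Real.log i ≤ i := by
  have hi' : (36:ℝ) ≤ i := by exact_mod_cast hi
  have hlog : 1 ≤ Real.log i := by
    rw [Real.le_log_iff_exp_le (by linarith)]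
    have := Real.exp_one_lt_d9
    linarith
  constructor
  · unfold ll
    refine max_le (by linarith) ?_
    have h1 : Real.log (1 / ww i) = 4 * (i:ℝ) ^ 2 * Real.log 2 := by
      unfold ww
      rw [one_div, ← inv_pow, Real.log_pow]
      push_cast
      norm_num
    rw [h1]
    have h2 := Real.log_two_gt_d9
    have h3 := Real.log_two_lt_d9
    have h4 : 4 * (i:ℝ) ^ 2 * Real.log 2 ≤ (i:ℝ) ^ 3 := by nlinarith [sq_nonneg (i:ℝ)]
    refine (Real.log_le_log (by positivity) h4).trans (le_of_eq ?_)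
    rw [Real.log_pow]
    norm_num
  · have h1 : Real.log i = 2 * Real.log (Real.sqrt i) := by
      rw [Real.log_sqrt (by linarith)]; ring
    have hs : 6 ≤ Real.sqrt i := Real.le_sqrt_of_sq_le (by norm_num; linarith)
    have h2 : Real.log (Real.sqrt i) ≤ Real.sqrt i :=
      (Real.log_le_sub_one_of_pos (by linarith)).trans (by linarith)
    have h3 : Real.sqrt i * Real.sqrt i = i := Real.mul_self_sqrt (by linarith)
    nlinarith

theorem psi_ww {i : ℕ} (hi : 36 ≤ i) :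
    (1/2) ^ (7 * i ^ 2) / (3 * Real.log i) ^ (3/4 : ℝ) ≤ psi (ww i) ∧
    (1/2) ^ (7 * i ^ 2) / (i : ℝ) ^ (3/4 : ℝ) ≤ psi (ww i) := by
  obtain ⟨h1, h2⟩ := ll_ww hi
  have h0 := ll_pos (ww i)
  unfold psi
  rw [ww_pow]
  constructor
  · exact div_le_div_of_nonneg_left (by positivity) (by positivity)
      (Real.rpow_le_rpow h0.le h1 (by norm_num))
  · exact div_le_div_of_nonneg_left (by positivity) (by positivity)
      (Real.rpow_le_rpow h0.le (h1.trans h2) (by norm_num))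

theorem sc1 {θ A0 K3 : ℝ} (hθ : 0 < θ) (hA : 0 < A0) (hK : 1 ≤ K3) :
    ∃ c0 : ℝ, 0 < c0 ∧ ∀ᶠ i : ℕ in atTop,
      c0 * (2 * tu θ K3 i + 4 * el A0 K3 (i + 1)) ≤ psi (ww i) := by
  obtain ⟨D, hD⟩ : ∃ D : ℝ, D = θ * (168 * K3) ^ (3/4 : ℝ) := ⟨_, rfl⟩
  have hD0 : 0 < D := by rw [hD]; positivity
  refine ⟨1 / (2 * D + 4), by positivity, ?_⟩
  have h1 : Tendsto (fun i : ℕ => A0 * ((1:ℝ)/2) ^ i) atTop (𝓝 (A0 * 0)) :=
    half_tend.const_mul A0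
  rw [mul_zero] at h1
  filter_upwards [eventually_ge_atTop 36, (kq_tend hK).eventually (eventually_ge_atTop 1),
    h1.eventually (ge_mem_nhds one_pos)] with i hi hk hsm
  obtain ⟨p1, p2⟩ := psi_ww hi
  have hi' : (36:ℝ) ≤ i := by exact_mod_cast hi
  have hlog : 1 ≤ Real.log i := by
    rw [Real.le_log_iff_exp_le (by linarith)]
    have := Real.exp_one_lt_d9
    linarith
  have hP := psi_nonneg (ww_pos i).le
  have htu : tu θ K3 i ≤ D * psi (ww i) := by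
    refine le_trans ?_ (mul_le_mul_of_nonneg_left p1 hD0.le)
    unfold tu
    rw [ww_pow, kt_cast]
    have h2 := log_le_kq hK hk
    have h3 : Real.log i / (56 * K3) ≤ ((kq K3 i : ℕ) : ℝ) ^ 2 := by
      rw [div_le_iff₀ (by positivity)]; linarith
    have h4 : (((kq K3 i : ℕ) : ℝ) ^ 2) ^ (-(3/4) : ℝ) ≤ (Real.log i / (56 * K3)) ^ (-(3/4) : ℝ) :=
      Real.rpow_le_rpow_of_nonpos (by positivity) h3 (by norm_num)
    have h5 : (Real.log i / (56 * K3)) ^ (-(3/4) : ℝ) =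
        (168 * K3) ^ (3/4 : ℝ) / (3 * Real.log i) ^ (3/4 : ℝ) := by
      rw [Real.rpow_neg (by positivity), ← Real.inv_rpow (by positivity), inv_div,
        ← Real.div_rpow (by positivity) (by positivity)]
      congr 1
      field_simp
      norm_num
    rw [h5] at h4
    calc θ * ((((kq K3 i : ℕ) : ℝ) ^ 2) ^ (-(3/4) : ℝ) * (1/2) ^ (7 * i ^ 2))
        ≤ θ * ((168 * K3) ^ (3/4 : ℝ) / (3 * Real.log i) ^ (3/4 : ℝ) * (1/2) ^ (7 * i ^ 2)) := by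
          gcongr
      _ = _ := by rw [hD]; ring
  have hel : el A0 K3 (i + 1) ≤ psi (ww i) := by
    refine le_trans ?_ p2
    refine (el_le hA hK (by omega)).trans ?_
    rw [le_div_iff₀ (by positivity)]
    have h2 : (i : ℝ) ^ (3/4 : ℝ) ≤ i := by
      have := Real.rpow_le_rpow_of_exponent_le (show (1:ℝ) ≤ i by linarith)
        (show (3/4 : ℝ) ≤ 1 by norm_num)
      rwa [Real.rpow_one] at this
    have h3 := i_half i
    have h4 := i_half (i + 1)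
    have e1 : ((1:ℝ)/2) ^ (7 * (i + 1) ^ 2) * 2 ^ (i + 1) =
        (1/2) ^ (7 * i ^ 2) * ((1/2) ^ (i + 1) * (1/2) ^ i * ((1/2) ^ i * (1/2) ^ (10 * i + 5))) := by
      have e2 : 7 * (i + 1) ^ 2 = 7 * i ^ 2 + ((i + 1) + i + (i + (10 * i + 5)) + (i + 1)) := by ring
      rw [e2, pow_add, pow_add, pow_add, pow_add, pow_add]
      have e3 : ((1:ℝ)/2) ^ (i + 1) * 2 ^ (i + 1) = 1 := by rw [← mul_pow]; norm_num
      calc _ = ((1:ℝ)/2) ^ (7 * i ^ 2) * ((1/2) ^ (i + 1) * (1/2) ^ i * ((1/2) ^ i *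
            (1/2) ^ (10 * i + 5))) * ((1/2) ^ (i + 1) * 2 ^ (i + 1)) := by ring
        _ = _ := by rw [e3, mul_one]; ring
    have h5 : ((1:ℝ)/2) ^ (10 * i + 5) ≤ 1 := pow_le_one₀ (by norm_num) (by norm_num)
    have h6 : 0 ≤ (i:ℝ) * (1/2) ^ i := by positivity
    have h7 : 0 ≤ ((i + 1 : ℕ):ℝ) * (1/2) ^ (i + 1) := by positivity
    calc A0 * ((1/2) ^ (7 * (i + 1) ^ 2) * (((i + 1 : ℕ) : ℝ) * 2 ^ (i + 1))) * (i : ℝ) ^ (3/4 : ℝ)
        ≤ A0 * ((1/2) ^ (7 * (i + 1) ^ 2) * (((i + 1 : ℕ) : ℝ) * 2 ^ (i + 1))) * i :=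
          mul_le_mul_of_nonneg_left h2 (by positivity)
      _ = A0 * (((1/2) ^ (7 * (i + 1) ^ 2) * 2 ^ (i + 1)) * (((i + 1 : ℕ) : ℝ) * i)) := by ring
      _ = (1/2) ^ (7 * i ^ 2) * ((((i + 1 : ℕ) : ℝ) * (1/2) ^ (i + 1)) * ((i:ℝ) * (1/2) ^ i) *
          (A0 * (1/2) ^ i) * (1/2) ^ (10 * i + 5)) := by rw [e1]; ring
      _ ≤ (1/2) ^ (7 * i ^ 2) * (1 * 1 * 1 * 1) := by gcongr
      _ = _ := by ring
  rw [one_div, inv_mul_le_iff₀ (by positivity)]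
  nlinarith

theorem sc3 {A0 K3 : ℝ} (hA : 0 < A0) (hK : 1 ≤ K3) : ∀ᶠ i : ℕ in atTop,
    4 * el A0 K3 i * (1 / (4 * A0 * ((i : ℝ) + 1))) ≤ NN i * psi (ww i) := by
  filter_upwards [eventually_ge_atTop 36] with i hi
  obtain ⟨p1, p2⟩ := psi_ww hi
  have hi' : (36:ℝ) ≤ i := by exact_mod_cast hi
  have h1 := ex_le hK (show 1 ≤ i by omega)
  have hN : (0:ℝ) ≤ NN i := Nat.cast_nonneg _
  refine le_trans ?_ (mul_le_mul_of_nonneg_left p2 hN)
  rw [el_eq]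
  have e1 : 4 * (A0 * ((1/2) ^ (7 * i ^ 2) *
      Real.exp (2 * (K3 * ((kq K3 i : ℕ) : ℝ) ^ 2)) ^ (7/4 : ℝ) * NN i)) *
      (1 / (4 * A0 * ((i : ℝ) + 1))) = NN i * ((1/2) ^ (7 * i ^ 2) *
      (Real.exp (2 * (K3 * ((kq K3 i : ℕ) : ℝ) ^ 2)) ^ (7/4 : ℝ) / ((i : ℝ) + 1))) := by
    field_simp
  rw [e1, div_eq_mul_inv ((1/2 : ℝ) ^ (7 * i ^ 2))]
  refine mul_le_mul_of_nonneg_left (mul_le_mul_of_nonneg_left ?_ (by positivity)) hN
  rw [div_le_iff₀ (by positivity)]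
  refine h1.trans ?_
  rw [inv_mul_eq_div, le_div_iff₀ (by positivity), ← Real.rpow_add (by linarith)]
  norm_num

theorem sc2 {A0 : ℝ} (hA : 0 < A0) (i0 : ℕ) :
    Tendsto (fun m : ℕ => ∑ i ∈ Finset.Ico i0 (i0 + m), 1 / (4 * A0 * ((i : ℝ) + 1))) atTop atTop := by
  have h1 : ∀ m : ℕ, ∑ i ∈ Finset.Ico i0 (i0 + m), 1 / (4 * A0 * ((i : ℝ) + 1)) =
      1 / (4 * A0) * (∑ i ∈ Finset.range (i0 + m), 1 / ((i : ℝ) + 1)) +
        -(1 / (4 * A0) * ∑ i ∈ Finset.range i0, 1 / ((i : ℝ) + 1)) := by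
    intro m
    rw [Finset.sum_Ico_eq_sub _ (Nat.le_add_right i0 m), Finset.mul_sum, Finset.mul_sum,
      sub_eq_add_neg]
    congr 1
    · refine Finset.sum_congr rfl fun i _ => ?_
      field_simp
    · congr 1
      refine Finset.sum_congr rfl fun i _ => ?_
      field_simp
  simp_rw [h1]
  refine tendsto_atTop_add_const_right _ _ ?_
  refine Tendsto.const_mul_atTop (by positivity) ?_
  refine Real.tendsto_sum_range_one_div_nat_succ_atTop.comp ?_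
  exact tendsto_atTop_mono (fun m => Nat.le_add_left m i0) tendsto_id

end Pool.Agent.V11321.EV
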