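import Pool.Agent.V11321.EV.Ft

/-!
Upper bound for the `ψ`-sums.
-/

set_option autoImplicit false
set_option linter.unusedVariables false

namespace Pool.Agent.V11321.EV

open H984N Pool.Agent.Y41.EV
open MeasureTheory Filter Topology
open scoped ENNReal NNReal

theorem ll_yn {K : ℝ} (hK : 0 < K) : ∀ᶠ n : ℕ in atTop, 2 * yn K n ≤ 1 ∧
    psi (2 * yn K n) ≤ 2 * (2 * K) ^ (7/4 : ℝ) * (1/2) ^ n := by
  have h1 : Tendsto (fun n : ℕ => Real.exp ((1:ℝ)/4 * n) * (2 * yn K n)) atTop (𝓝 0) := by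
    have h2 : Tendsto (fun j : ℕ => 2 * K * ((j : ℝ) ^ 1 *
        (Real.exp (1/4) * ((1:ℝ)/2) ^ (4/7 : ℝ)) ^ j)) atTop (𝓝 (2 * K * 0)) := by
      refine Tendsto.const_mul _ ?_
      refine tendsto_pow_const_mul_const_pow_of_lt_one 1 (by positivity) ?_
      have e : ((1:ℝ)/2) ^ (4/7 : ℝ) = Real.exp (-(4/7 * Real.log 2)) := by
        rw [Real.rpow_def_of_pos (by norm_num), one_div, Real.log_inv]
        congr 1; ring
      rw [e, ← Real.exp_add, Real.exp_lt_one_iff]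
      have := Real.log_two_gt_d9
      linarith
    rw [mul_zero] at h2
    refine squeeze_zero' (Eventually.of_forall fun j => ?_) ?_ h2
    · have hl : 0 ≤ Real.log j := Real.log_natCast_nonneg j
      unfold yn; positivity
    · filter_upwards [eventually_ge_atTop 1] with j hj
      have hj0 : (1:ℝ) ≤ j := by exact_mod_cast hj
      have hl : 0 ≤ Real.log j := Real.log_natCast_nonneg j
      have hl2 : Real.log j ≤ j := (Real.log_le_sub_one_of_pos (by linarith)).trans (by linarith)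
      have h3 : Real.log j ^ (3/7 : ℝ) ≤ (j:ℝ) ^ (3/7 : ℝ) := Real.rpow_le_rpow hl hl2 (by norm_num)
      have h4 := Real.rpow_le_rpow_of_exponent_le hj0 (show (3/7 : ℝ) ≤ 1 by norm_num)
      rw [Real.rpow_one] at h4
      have e1 : Real.exp ((1:ℝ)/4 * j) = Real.exp (1/4) ^ j := by
        rw [← Real.exp_nat_mul]; congr 1; ring
      have e2 : ((1:ℝ)/2) ^ (4/7 : ℝ) = ((1:ℝ)/2) ^ (4/7 : ℝ) := rfl
      have e3 : (((1:ℝ)/2) ^ j) ^ (4/7 : ℝ) = (((1:ℝ)/2) ^ (4/7 : ℝ)) ^ j := by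
        rw [← Real.rpow_natCast ((1:ℝ)/2) j, ← Real.rpow_mul (by norm_num),
          mul_comm (j : ℝ) (4/7), Real.rpow_mul (by norm_num), Real.rpow_natCast]
      unfold yn
      rw [e1, e3, mul_pow, pow_one]
      have h5 : 0 ≤ Real.exp (1/4) ^ j * (((1:ℝ)/2) ^ (4/7 : ℝ)) ^ j := by positivity
      calc Real.exp (1/4) ^ j * (2 * (K * ((((1:ℝ)/2) ^ (4/7 : ℝ)) ^ j * Real.log j ^ (3/7 : ℝ))))
          = 2 * K * (Real.log j ^ (3/7 : ℝ) * (Real.exp (1/4) ^ j *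
            (((1:ℝ)/2) ^ (4/7 : ℝ)) ^ j)) := by ring
        _ ≤ _ := mul_le_mul_of_nonneg_left (mul_le_mul_of_nonneg_right (h3.trans h4) h5)
          (by positivity)
  filter_upwards [h1.eventually (ge_mem_nhds one_pos), eventually_ge_atTop 16] with n h2 h3
  have hn : (16:ℝ) ≤ n := by exact_mod_cast h3
  have hy := yn_pos hK (show 2 ≤ n by omega)
  have hlog : 0 < Real.log n := Real.log_pos (by linarith)
  have h4 : 2 * yn K n ≤ Real.exp (-(1/4 * n)) := by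
    rw [Real.exp_neg, ← one_div, le_div_iff₀ (Real.exp_pos _)]
    linarith
  have h5 : Real.exp (-(1/4 * (n:ℝ))) ≤ 1 := by rw [Real.exp_le_one_iff]; linarith
  refine ⟨h4.trans h5, ?_⟩
  have h6 : (n:ℝ) / 4 ≤ Real.log (1 / (2 * yn K n)) := by
    rw [one_div, Real.log_inv]
    have := Real.log_le_log (by positivity) h4
    rw [Real.log_exp] at this
    linarith
  have h7 : Real.log n / 2 ≤ ll (2 * yn K n) := by
    refine le_trans ?_ (le_max_right _ _)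
    refine le_trans ?_ (Real.log_le_log (by positivity) h6)
    rw [Real.log_div (by positivity) (by norm_num)]
    have h8 : Real.log 16 ≤ Real.log n := Real.log_le_log (by norm_num) hn
    have h9 : Real.log 16 = 2 * Real.log 4 := by
      rw [show (16:ℝ) = 4 ^ 2 by norm_num, Real.log_pow]; norm_num
    linarith
  unfold psi
  have h8 : (Real.log n / 2) ^ (3/4 : ℝ) ≤ ll (2 * yn K n) ^ (3/4 : ℝ) :=
    Real.rpow_le_rpow (by positivity) h7 (by norm_num)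
  have h9 : (2 * yn K n) ^ (7/4 : ℝ) = (2 * K) ^ (7/4 : ℝ) * ((1/2) ^ n * Real.log n ^ (3/4 : ℝ)) := by
    have := yn_pow (K := 2 * K) (by positivity) n
    rw [← this]
    congr 1
    unfold yn; ring
  rw [div_le_iff₀ (by have := ll_pos (2 * yn K n); positivity), h9]
  have h10 : (2:ℝ) ^ (3/4 : ℝ) ≤ 2 := by
    have : (2:ℝ) ^ (3/4 : ℝ) ≤ 2 ^ (1 : ℝ) :=
      Real.rpow_le_rpow_of_exponent_le (by norm_num) (by norm_num)
    rwa [Real.rpow_one] at this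
  have h11 : Real.log n ^ (3/4 : ℝ) ≤ 2 * ll (2 * yn K n) ^ (3/4 : ℝ) := by
    rw [Real.div_rpow hlog.le (by norm_num), div_le_iff₀ (by positivity)] at h8
    have h12 : 0 ≤ ll (2 * yn K n) ^ (3/4 : ℝ) := by
      have := ll_pos (2 * yn K n); positivity
    nlinarith
  calc (2 * K) ^ (7/4 : ℝ) * ((1/2) ^ n * Real.log n ^ (3/4 : ℝ))
      ≤ (2 * K) ^ (7/4 : ℝ) * ((1/2) ^ n * (2 * ll (2 * yn K n) ^ (3/4 : ℝ))) := by gcongr
    _ = _ := by ring

/-- One interval. -/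
theorem one_int {p : X} (hp : 0 < p.2) {K Λ h0 : ℝ} (hK : 0 < K) (hΛ : 0 < Λ) {n0 : ℕ}
    (hn0 : ∀ n : ℕ, n0 ≤ n → 2 * yn K n ≤ 1 ∧
      psi (2 * yn K n) ≤ 2 * (2 * K) ^ (7/4 : ℝ) * (1/2) ^ n)
    (hmod : ∀ h : ℝ, 0 < h → h < h0 → ∀ s t : unitInterval, |(s : ℝ) - t| * p.2 ≤ h →
      dist (p.1 s) (p.1 t) ≤ Λ * (h ^ (4/7 : ℝ) * Real.log (1 / h) ^ (3/7 : ℝ)))
    {a b : unitInterval} (hab : a ≤ b) {l : ℝ} (hl : l = p.2 * ((b : ℝ) - a)) (hl1 : l < h0)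
    (hl2 : l ≤ (1/2) ^ n0) :
    psi (dist (p.1 a) (p.1 b)) ≤ 4 * (2 * K) ^ (7/4 : ℝ) * l ∨
      ∃ n : ℕ, n0 ≤ n ∧ psi (dist (p.1 a) (p.1 b)) ≤ Λ ^ (7/4 : ℝ) * (((n : ℝ) + 1) ^ (3/4 : ℝ) * l) ∧
        ∀ x : unitInterval, a ≤ x → x ≤ b → x ∈ FT p (yn K n) (2 * (1/2) ^ n) := by
  have hab' : (a : ℝ) ≤ b := hab
  have hlnn : 0 ≤ l := by
    rw [hl]
    exact mul_nonneg hp.le (by linarith)
  rcases hlnn.eq_or_lt with h0' | hlpos
  · left
    have h1 : (b : ℝ) - a = 0 := by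
      rw [← h0'] at hl
      rcases mul_eq_zero.1 hl.symm with h | h
      · linarith
      · exact h
    have h2 : a = b := Subtype.ext (by linarith)
    rw [h2, dist_self, psi_zero, ← h0', mul_zero]
  have hle1 : l ≤ 1 := hl2.trans (pow_le_one₀ (by norm_num) (by norm_num))
  obtain ⟨n, hn1, hn2⟩ := exists_nat_pow_near_of_lt_one hlpos hle1
    (show (0:ℝ) < 1/2 by norm_num) (by norm_num)
  have hn : n0 ≤ n := by
    by_contra hcon
    push Not at hcon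
    have : ((1:ℝ)/2) ^ n0 ≤ (1/2) ^ (n + 1) :=
      pow_le_pow_of_le_one (by norm_num) (by norm_num) (by omega)
    linarith
  obtain ⟨g1, g2⟩ := hn0 n hn
  have hsucc : ((1:ℝ)/2) ^ (n + 1) = (1/2) ^ n / 2 := by rw [pow_succ]; ring
  rcases le_or_gt (dist (p.1 a) (p.1 b)) (2 * yn K n) with hc | hc
  · left
    refine (psi_mono dist_nonneg hc g1).trans (g2.trans ?_)
    have h3 : ((1:ℝ)/2) ^ n ≤ 2 * l := by linarith
    have h4 : 0 ≤ 2 * (2 * K) ^ (7/4 : ℝ) := by positivity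
    calc 2 * (2 * K) ^ (7/4 : ℝ) * (1/2) ^ n ≤ 2 * (2 * K) ^ (7/4 : ℝ) * (2 * l) :=
          mul_le_mul_of_nonneg_left h3 h4
      _ = _ := by ring
  · right
    refine ⟨n, hn, ?_, ?_⟩
    · have h3 := hmod l hlpos hl1 a b (by
        rw [hl, abs_sub_comm, abs_of_nonneg (by linarith), mul_comm])
      have hlog0 : 0 ≤ Real.log (1 / l) := Real.log_nonneg (by
        rw [le_div_iff₀ hlpos]; linarith)
      have hlog1 : Real.log (1 / l) ≤ (n : ℝ) + 1 := by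
        have h4 : 1 / l ≤ 1 / ((1:ℝ)/2) ^ (n + 1) := one_div_le_one_div_of_le (by positivity) hn1.le
        have h5 := Real.log_le_log (by positivity) h4
        have h6 : Real.log (1 / ((1:ℝ)/2) ^ (n + 1)) = ((n : ℝ) + 1) * Real.log 2 := by
          rw [one_div, ← inv_pow, Real.log_pow]
          push_cast
          norm_num
        rw [h6] at h5
        have := Real.log_two_lt_d9
        have hnn : (0:ℝ) ≤ n := Nat.cast_nonneg _
        nlinarith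
      refine (psi_le dist_nonneg).trans ?_
      refine (Real.rpow_le_rpow dist_nonneg h3 (by norm_num)).trans ?_
      rw [Real.mul_rpow hΛ.le (by positivity), Real.mul_rpow (by positivity) (by positivity),
        ← Real.rpow_mul hlpos.le, ← Real.rpow_mul hlog0]
      norm_num
      have h7 : Real.log (1 / l) ^ (3/4 : ℝ) ≤ ((n : ℝ) + 1) ^ (3/4 : ℝ) :=
        Real.rpow_le_rpow hlog0 hlog1 (by norm_num)
      rw [one_div, Real.log_inv] at h7
      refine mul_le_mul_of_nonneg_left ?_ (by positivity)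
      rw [mul_comm]
      exact mul_le_mul_of_nonneg_right h7 hlpos.le
    · intro x h1 h2
      have h1' : (a : ℝ) ≤ x := h1
      have h2' : (x : ℝ) ≤ b := h2
      have h3 : (0:ℝ) < (1/2) ^ n := by positivity
      have h4 := dist_triangle (p.1 a) (p.1 x) (p.1 b)
      rcases le_or_gt (dist (p.1 a) (p.1 x)) (yn K n) with h5 | h5
      · refine ⟨b, ?_, ?_⟩
        · rw [abs_of_nonneg (by linarith)]
          have : p.2 * ((b : ℝ) - x) ≤ l := by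
            rw [hl]; exact mul_le_mul_of_nonneg_left (by linarith) hp.le
          linarith
        · rw [dist_comm (p.1 b)]; linarith
      · refine ⟨a, ?_, h5⟩
        rw [abs_sub_comm, abs_of_nonneg (by linarith)]
        have : p.2 * ((x : ℝ) - a) ≤ l := by
          rw [hl]; exact mul_le_mul_of_nonneg_left (by linarith) hp.le
        linarith

theorem up_det {p : X} (hp : 0 < p.2) {K Λ : ℝ} (hK : 0 < K) (hΛ : 0 < Λ)
    (hft : ∀ᶠ n : ℕ in atTop,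
      p.2 * (volume (FT p (yn K n) (2 * (1/2) ^ n))).toReal ≤ 1 / (n : ℝ) ^ 2)
    (hmod : ∃ h0 : ℝ, 0 < h0 ∧ ∀ h : ℝ, 0 < h → h < h0 → ∀ s t : unitInterval,
      |(s : ℝ) - t| * p.2 ≤ h →
      dist (p.1 s) (p.1 t) ≤ Λ * (h ^ (4/7 : ℝ) * Real.log (1 / h) ^ (3/7 : ℝ)))
    {ε : ℝ} (hε : 0 < ε) : ∃ η : ℝ, 0 < η ∧ ∀ (N : ℕ) (τ : ℕ → unitInterval), Monotone τ →
      (∀ i < N, (τ (i + 1) : ℝ) - τ i ≤ η) →
      ∑ i ∈ Finset.range N, psi (dist (p.1 (τ i)) (p.1 (τ (i + 1)))) ≤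
        4 * (2 * K) ^ (7/4 : ℝ) * (p.2 * ((τ N : ℝ) - τ 0)) + ε := by
  classical
  obtain ⟨g, hg⟩ : ∃ g : ℕ → ℝ, g = fun n : ℕ => 2 * Λ ^ (7/4 : ℝ) * (1 / (n : ℝ) ^ (5/4 : ℝ)) := ⟨_, rfl⟩
  have hgs : Summable g := by
    rw [hg]
    exact (Real.summable_one_div_nat_rpow.mpr (by norm_num)).mul_left _
  obtain ⟨s0, hs0⟩ := summable_iff_vanishing_norm.1 hgs ε hε
  obtain ⟨h0, hh0, hmod⟩ := hmod
  obtain ⟨n0, hn0⟩ := eventually_atTop.1 ((ll_yn hK).and (hft.and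
    ((eventually_ge_atTop 1).and (eventually_gt_atTop (s0.sup id)))))
  obtain ⟨η, hη⟩ : ∃ η : ℝ, η = min (h0 / 2) ((1/2) ^ n0) / p.2 := ⟨_, rfl⟩
  have hη0 : 0 < η := by
    rw [hη]
    exact div_pos (lt_min (by linarith) (by positivity)) hp
  have hηT : p.2 * η = min (h0 / 2) ((1/2) ^ n0) := by rw [hη]; field_simp
  refine ⟨η, hη0, fun N τ hτ hmesh => ?_⟩
  obtain ⟨l, hl⟩ : ∃ l : ℕ → ℝ, l = fun i => p.2 * ((τ (i + 1) : ℝ) - τ i) := ⟨_, rfl⟩
  have hmono : ∀ i, τ i ≤ τ (i + 1) := fun i => hτ (Nat.le_succ i)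
  have hl0 : ∀ i, 0 ≤ l i := by
    intro i
    rw [hl]
    have : (τ i : ℝ) ≤ τ (i + 1) := hmono i
    exact mul_nonneg hp.le (by linarith)
  have hlη : ∀ i < N, l i ≤ min (h0 / 2) ((1/2) ^ n0) := by
    intro i hi
    rw [← hηT, hl]
    exact mul_le_mul_of_nonneg_left (hmesh i hi) hp.le
  have hcl : ∀ i < N, psi (dist (p.1 (τ i)) (p.1 (τ (i + 1)))) ≤ 4 * (2 * K) ^ (7/4 : ℝ) * l i ∨
      ∃ n : ℕ, n0 ≤ n ∧ psi (dist (p.1 (τ i)) (p.1 (τ (i + 1)))) ≤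
        Λ ^ (7/4 : ℝ) * (((n : ℝ) + 1) ^ (3/4 : ℝ) * l i) ∧
        ∀ x : unitInterval, τ i ≤ x → x ≤ τ (i + 1) → x ∈ FT p (yn K n) (2 * (1/2) ^ n) := by
    intro i hi
    have h1 := hlη i hi
    refine one_int hp hK hΛ (h0 := h0) (fun n hn => (hn0 n hn).1) hmod (hmono i) (by rw [hl]) ?_ ?_
    · have := min_le_left (h0 / 2) (((1:ℝ)/2) ^ n0)
      linarith
    · exact h1.trans (min_le_right _ _)
  obtain ⟨Bd, hBd⟩ : ∃ Bd : Finset ℕ, Bd = (Finset.range N).filter (fun i =>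
    ¬ psi (dist (p.1 (τ i)) (p.1 (τ (i + 1)))) ≤ 4 * (2 * K) ^ (7/4 : ℝ) * l i) := ⟨_, rfl⟩
  have hbad : ∀ i ∈ Bd, ∃ n : ℕ, n0 ≤ n ∧ psi (dist (p.1 (τ i)) (p.1 (τ (i + 1)))) ≤
        Λ ^ (7/4 : ℝ) * (((n : ℝ) + 1) ^ (3/4 : ℝ) * l i) ∧
        ∀ x : unitInterval, τ i ≤ x → x ≤ τ (i + 1) → x ∈ FT p (yn K n) (2 * (1/2) ^ n) := by
    intro i hi
    rw [hBd, Finset.mem_filter, Finset.mem_range] at hi
    exact (hcl i hi.1).resolve_left hi.2
  choose! ν hν1 hν2 hν3 using hbad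
  have hsplit : ∑ i ∈ Finset.range N, psi (dist (p.1 (τ i)) (p.1 (τ (i + 1)))) ≤
      ∑ i ∈ Finset.range N, 4 * (2 * K) ^ (7/4 : ℝ) * l i +
        ∑ i ∈ Bd, Λ ^ (7/4 : ℝ) * (((ν i : ℝ) + 1) ^ (3/4 : ℝ) * l i) := by
    rw [← Finset.sum_filter_add_sum_filter_not (Finset.range N) (fun i =>
      psi (dist (p.1 (τ i)) (p.1 (τ (i + 1)))) ≤ 4 * (2 * K) ^ (7/4 : ℝ) * l i)
      (fun i => psi (dist (p.1 (τ i)) (p.1 (τ (i + 1)))))]
    refine add_le_add ?_ ?_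
    · refine (Finset.sum_le_sum fun i hi => (Finset.mem_filter.1 hi).2).trans ?_
      refine Finset.sum_le_sum_of_subset_of_nonneg (Finset.filter_subset _ _) fun i _ _ => ?_
      have := hl0 i
      positivity
    · rw [← hBd]
      exact Finset.sum_le_sum fun i hi => hν2 i hi
  have hsum1 : ∑ i ∈ Finset.range N, 4 * (2 * K) ^ (7/4 : ℝ) * l i =
      4 * (2 * K) ^ (7/4 : ℝ) * (p.2 * ((τ N : ℝ) - τ 0)) := by
    rw [← Finset.mul_sum, hl, ← Finset.mul_sum,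
      Finset.sum_range_sub (fun i => ((τ i : unitInterval) : ℝ)) N]
  have hcell : ∀ n ∈ Bd.image ν, ∑ i ∈ Bd.filter (fun i => ν i = n),
      ((τ (i + 1) : ℝ) - τ i) ≤ (volume (FT p (yn K n) (2 * (1/2) ^ n))).toReal := by
    intro n hn
    have hsub : (⋃ i ∈ Bd.filter (fun i => ν i = n), Set.Ioc (τ i) (τ (i + 1))) ⊆
        FT p (yn K n) (2 * (1/2) ^ n) := by
      intro x hx
      simp only [Set.mem_iUnion] at hx
      obtain ⟨i, hi, hx⟩ := hx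
      rw [Finset.mem_filter] at hi
      have := hν3 i hi.1 x hx.1.le hx.2
      rwa [hi.2] at this
    have hm := measure_mono (μ := (volume : Measure unitInterval)) hsub
    have hdis : Set.PairwiseDisjoint (↑(Bd.filter (fun i => ν i = n)) : Set ℕ)
        (fun i => Set.Ioc (τ i) (τ (i + 1))) :=
      fun i _ j _ hij => hτ.pairwise_disjoint_on_Ioc_succ hij
    rw [measure_biUnion_finset hdis (fun i _ => measurableSet_Ioc)] at hm
    have e : ∑ i ∈ Bd.filter (fun i => ν i = n), volume (Set.Ioc (τ i) (τ (i + 1))) =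
        ENNReal.ofReal (∑ i ∈ Bd.filter (fun i => ν i = n), ((τ (i + 1) : ℝ) - τ i)) := by
      rw [ENNReal.ofReal_sum_of_nonneg (fun i _ => by
        have : (τ i : ℝ) ≤ τ (i + 1) := hmono i
        linarith)]
      refine Finset.sum_congr rfl fun i _ => ?_
      rw [unitInterval.volume_Ioc]
    rw [e] at hm
    exact (ENNReal.ofReal_le_iff_le_toReal (measure_ne_top _ _)).1 hm
  have hsum2 : ∑ i ∈ Bd, Λ ^ (7/4 : ℝ) * (((ν i : ℝ) + 1) ^ (3/4 : ℝ) * l i) ≤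
      ∑ n ∈ Bd.image ν, g n := by
    rw [← Finset.sum_fiberwise_of_maps_to (s := Bd) (t := Bd.image ν) (g := ν)
      (fun i hi => Finset.mem_image_of_mem ν hi)]
    refine Finset.sum_le_sum fun n hn => ?_
    have hnn0 : n0 ≤ n := by
      obtain ⟨i, hi, rfl⟩ := Finset.mem_image.1 hn
      exact hν1 i hi
    obtain ⟨-, k2, k3, -⟩ := hn0 n hnn0
    have hn1 : (1:ℝ) ≤ n := by exact_mod_cast k3
    have e1 : ∑ i ∈ Bd.filter (fun i => ν i = n), Λ ^ (7/4 : ℝ) * (((ν i : ℝ) + 1) ^ (3/4 : ℝ) * l i) =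
        Λ ^ (7/4 : ℝ) * ((n : ℝ) + 1) ^ (3/4 : ℝ) * (p.2 *
          ∑ i ∈ Bd.filter (fun i => ν i = n), ((τ (i + 1) : ℝ) - τ i)) := by
      rw [Finset.mul_sum, Finset.mul_sum]
      refine Finset.sum_congr rfl fun i hi => ?_
      rw [(Finset.mem_filter.1 hi).2, hl]
      ring
    rw [e1, hg]
    have h5 := (mul_le_mul_of_nonneg_left (hcell n hn) hp.le).trans k2
    have h6 : ((n : ℝ) + 1) ^ (3/4 : ℝ) ≤ 2 * (n : ℝ) ^ (3/4 : ℝ) := by
      have h7 : ((n : ℝ) + 1) ^ (3/4 : ℝ) ≤ (2 * n) ^ (3/4 : ℝ) :=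
        Real.rpow_le_rpow (by positivity) (by linarith) (by norm_num)
      rw [Real.mul_rpow (by norm_num) (by positivity)] at h7
      have h10 : (2:ℝ) ^ (3/4 : ℝ) ≤ 2 := by
        have : (2:ℝ) ^ (3/4 : ℝ) ≤ 2 ^ (1 : ℝ) :=
          Real.rpow_le_rpow_of_exponent_le (by norm_num) (by norm_num)
        rwa [Real.rpow_one] at this
      exact h7.trans (mul_le_mul_of_nonneg_right h10 (by positivity))
    have h8 : (n : ℝ) ^ (3/4 : ℝ) * (1 / (n : ℝ) ^ 2) = 1 / (n : ℝ) ^ (5/4 : ℝ) := by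
      have hn00 : (0:ℝ) < n := by linarith
      have e2 : (n : ℝ) ^ 2 = (n : ℝ) ^ (3/4 : ℝ) * (n : ℝ) ^ (5/4 : ℝ) := by
        rw [← Real.rpow_add hn00, ← Real.rpow_natCast]; norm_num
      have e3 : (0:ℝ) < (n : ℝ) ^ (3/4 : ℝ) := by positivity
      have e4 : (0:ℝ) < (n : ℝ) ^ (5/4 : ℝ) := by positivity
      rw [e2]
      field_simp
    have h12 : 0 ≤ p.2 * ∑ i ∈ Bd.filter (fun i => ν i = n), ((τ (i + 1) : ℝ) - τ i) := by
      refine mul_nonneg hp.le (Finset.sum_nonneg fun i _ => ?_)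
      have : (τ i : ℝ) ≤ τ (i + 1) := hmono i
      linarith
    calc Λ ^ (7/4 : ℝ) * ((n : ℝ) + 1) ^ (3/4 : ℝ) * (p.2 *
          ∑ i ∈ Bd.filter (fun i => ν i = n), ((τ (i + 1) : ℝ) - τ i))
        ≤ Λ ^ (7/4 : ℝ) * (2 * (n : ℝ) ^ (3/4 : ℝ)) * (1 / (n : ℝ) ^ 2) := by gcongr
      _ = 2 * Λ ^ (7/4 : ℝ) * ((n : ℝ) ^ (3/4 : ℝ) * (1 / (n : ℝ) ^ 2)) := by ring
      _ = _ := by rw [h8]
  have hsmall : ∑ n ∈ Bd.image ν, g n < ε := by
    have hdis : Disjoint (Bd.image ν) s0 := by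
      rw [Finset.disjoint_left]
      intro n hn hns
      obtain ⟨i, hi, rfl⟩ := Finset.mem_image.1 hn
      obtain ⟨-, -, -, k4⟩ := hn0 _ (hν1 i hi)
      have := Finset.le_sup (f := id) hns
      simp only [id] at this
      omega
    exact (le_abs_self _).trans_lt (hs0 _ hdis)
  rw [hsum1] at hsplit
  linarith

end Pool.Agent.V11321.EV
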