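import Pool.Agent.V11321.EV.Scal
import Pool.Agent.V11321.EV.Up
import Pool.Agent.V11321.ND.Chung

/-!
The exact `ψ`-variation of the limits.
-/

set_option autoImplicit false
set_option linter.unusedVariables false

namespace Pool.Agent.V11321.EV

open H974 Finset H342P H984P H984N Pool.Agent.Y995.FS Pool.Agent.Y995.HG Pool.Agent.Y41.EV
open MeasureTheory Filter Topology
open scoped ENNReal NNReal

/-- Almost surely long pieces in the bulk contain many fast pairs. -/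
theorem low_as {θ K3 A0 : ℝ} (hθ : 0 < θ) (hK : 1 ≤ K3) (hA0 : 1 ≤ A0) {R : Rect} {A : ℝ}
    (hA : 0 < A) (hlat : LatV θ K3 A0 R A)
    {δ : ℕ → ℝ} (hδ : ∀ i, 0 < δ i) (hlim : Tendsto δ atTop (𝓝 0))
    {μ : ProbabilityMeasure X} (hμ : Tendsto (fun i => R.law (δ i)) atTop (𝓝 μ)) :
    ∀ᵐ p ∂(μ : Measure X), ∀ k : ℕ, ∀ᶠ i : ℕ in atTop,
      p ∉ BadV R (1 / ((k : ℝ) + 1)) (ww i) (tu θ K3 i) (el A0 K3 i) (Y995.HG.NN i) := by
  exact bc R (K := 1) le_rfl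
    (B := fun ρ j => BadV R ρ (ww j) (tu θ K3 j) (el A0 K3 j) (Y995.HG.NN j))
    (fun ρ j => Pool.Agent.Y287.EV.badvo R _ _ _ _ _)
    (fun ρ hρ => by
      have h1 : ∀ᶠ i : ℕ in atTop, 20 ≤ i ∧ 1 ≤ kq K3 i ∧
          A0 * (ww i * Real.exp (2 * (K3 * ((kq K3 i : ℕ) : ℝ) ^ 2))) ≤ ρ :=
        (eventually_ge_atTop 20).and (((kq_tend hK).eventually (eventually_ge_atTop 1)).and
          (ev_rho hK (by linarith) hρ))
      rw [eventually_atTop] at h1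
      obtain ⟨j1, hj1⟩ := h1
      refine ⟨A, j1, hA, fun j hj => ?_⟩
      obtain ⟨g1, g2, g3⟩ := hj1 j hj
      obtain ⟨δ1, hδ1, h4⟩ := hlat (kt K3 j) (Y995.HG.NN j) (ww j) ρ
        (by unfold kt; exact Nat.one_le_pow _ _ g2)
        (by have := NN_big g1; omega) (ww_pos j) (by
          have h5 := ww_le (i := j) (by omega)
          have h6 : ((1:ℝ)/2) ^ (2 * j) ≤ (1/2) ^ 3 :=
            pow_le_pow_of_le_one (by norm_num) (by norm_num) (by omega)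
          norm_num at h6
          linarith) (by rw [kt_cast]; exact g3)
      refine ⟨δ1, hδ1, fun δ hδ hδ' => ?_⟩
      exact (h4 δ hδ hδ').trans (pr_bound hA g1))
    hδ hlim hμ

theorem exact_var : ∃ c C : ℝ, 0 < c ∧ 0 < C ∧ ∀ R : Rect,
    (∀ δ : ℕ → ℝ, (∀ i, 0 < δ i) → Tendsto δ atTop (𝓝 0) →
      ∃ φ : ℕ → ℕ, StrictMono φ ∧ ∃ μ : ProbabilityMeasure X,
        Tendsto (fun i => R.law (δ (φ i))) atTop (𝓝 μ)) ∧
    ∀ δ : ℕ → ℝ, (∀ i, 0 < δ i) → Tendsto δ atTop (𝓝 0) → ∀ μ : ProbabilityMeasure X,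
      Tendsto (fun i => R.law (δ i)) atTop (𝓝 μ) →
      ∀ᵐ p ∂(μ : Measure X), 0 < p.2 ∧ ∀ s t : unitInterval, s < t →
        (∀ η : ℝ, 0 < η → VG p.1 η s t (c * (p.2 * ((t : ℝ) - s)))) ∧
        ∃ η : ℝ, 0 < η ∧ ∀ (n : ℕ) (τ : ℕ → unitInterval), Monotone τ → τ 0 = s → τ n = t →
          (∀ i < n, (τ (i + 1) : ℝ) - τ i ≤ η) →
          ∑ i ∈ Finset.range n, psi (dist (p.1 (τ i)) (p.1 (τ (i + 1)))) ≤
            C * (p.2 * ((t : ℝ) - s)) := by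
  obtain ⟨⟨c, hc, hL⟩, ⟨C, hC, hU⟩, C2, hC2, hA⟩ := Pool.Agent.Y985.ME.inputs
  have hfm : FM := Pool.Agent.Y490.EV.fm2 Pool.Agent.Y941.EV.t_FM1 Pool.Agent.Y490.EV.fm2p
    Pool.Agent.Y985.ME.s_blk Pool.Agent.Y985.ME.s_fm C hC hU
  obtain ⟨θ, K3, A0, hθ, hK3, hA0, hlat⟩ :=
    Pool.Agent.Y758.EV.latv manyp Pool.Agent.Z864.EV.badvm c C hc hC hL hU
  obtain ⟨a, B, ha, hB, hftl⟩ := Pool.Agent.Y858.EV.ftlat hfm Pool.Agent.Y988.EV.ftm
  obtain ⟨cg, Cg, hcg, hCg, hgs⟩ := gauge_sets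
  obtain ⟨c0, hc0, hsc1⟩ := sc1 (θ := θ) (A0 := A0) (K3 := K3) hθ (by linarith) hK3
  obtain ⟨K, hKd⟩ : ∃ K : ℝ, K = (4 * 2 ^ (4/3 : ℝ) / a) ^ (3/7 : ℝ) := ⟨_, rfl⟩
  have hK : 0 < K := by rw [hKd]; positivity
  have haK : a * K ^ (7/3 : ℝ) / 2 ^ (4/3 : ℝ) = 4 := by
    rw [hKd, ← Real.rpow_mul (by positivity)]
    norm_num
    field_simp
  refine ⟨c0 / 2, 4 * (2 * K) ^ (7/4 : ℝ) + 1, by positivity, by positivity, fun R => ?_⟩
  obtain ⟨-, h2, h3⟩ := final_of hc hC hL hU hC2 hA R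
  obtain ⟨A, hA1, hlatR⟩ := hlat R
  obtain ⟨A2, y0, hA2, hy0, hftR⟩ := hftl R
  obtain ⟨Λ, hΛ, hup⟩ := Pool.Agent.Y985.ME.mod_up R
  refine ⟨h2, fun δ hδ hlim μ hμ => ?_⟩
  filter_upwards [h3 δ hδ hlim μ hμ, low_as hθ hK3 hA0 hA1 hlatR hδ hlim hμ,
    ft_as ha hB hA2 hy0 hftR hK haK hδ hlim hμ, hup δ hδ hlim μ hμ,
    (hgs R).2 δ hδ hlim μ hμ] with p g1 g2 g3 g4 g5
  have hp := g1.1
  have hcl := g1.2.2.2.1
  refine ⟨hp, fun s t hst => ⟨fun η hη => ?_, ?_⟩⟩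
  · have hz : volume {u : unitInterval | dep R (p.1 u) ≤ 0} = 0 := by
      obtain ⟨E, hE⟩ : ∃ E : Set unitInterval, E = {u | dep R (p.1 u) ≤ 0} := ⟨_, rfl⟩
      rw [← hE]
      have h5 := (g5.2 E).1
      have h6 : Measure.mkMetric Pool.Agent.Y995.HG.gm (p.1 '' E) ≤ 0 := by
        refine (measure_mono ?_).trans (le_of_eq (mk_bdry R))
        rintro _ ⟨u, hu, rfl⟩
        rw [hE] at hu
        exact ⟨hcl u, hu⟩
      have h7 : ENNReal.ofReal (cg * p.2) * volume E = 0 := le_antisymm (h5.trans h6) bot_le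
      rcases mul_eq_zero.1 h7 with h8 | h8
      · rw [ENNReal.ofReal_eq_zero] at h8
        have : 0 < cg * p.2 := by positivity
        linarith
      · exact h8
    refine lowall (g := fun u => dep R (p.1 u)) hp hc0 ((dep_cont R).comp p.1.continuous) hz ?_ hst hη
    intro k s t hst hbulk η hη
    refine lowbulk (N := Y995.HG.NN) (l := el A0 K3) (τ := tu θ K3) (w := ww)
      (a := fun i => 1 / (4 * A0 * ((i : ℝ) + 1))) (I0 := Set.Icc s t) hp hc0 ?_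
      (tu_tend hθ hK3) (el_tend (by linarith) hK3) hsc1 (sc3 (by linarith) hK3)
      (sc2 (by linarith)) ?_ hst le_rfl hη
    · filter_upwards [eventually_ge_atTop 20] with i hi
      have hN := NN_big hi
      refine ⟨by omega, ww_pos i, el_pos (by linarith) (by omega), by positivity, tu_nonneg hθ i⟩
    · filter_upwards [g2 k] with i hi s' t' hsub hlt
      by_contra hcon
      apply hi
      refine ⟨s', t', fun u hu1 hu2 => hbulk u (hsub ⟨hu1, hu2⟩), hlt, hcon⟩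
  · have hst' : (s : ℝ) < t := hst
    have hpos : 0 < p.2 * ((t : ℝ) - s) := mul_pos hp (by linarith)
    obtain ⟨η, hη, h5⟩ := up_det hp hK hΛ g3 (by
      obtain ⟨h0, hh0, h6⟩ := g4
      exact ⟨h0, hh0, h6⟩) hpos
    refine ⟨η, hη, fun n τ k1 k2 k3 k4 => ?_⟩
    have h6 := h5 n τ k1 k4
    rw [k2, k3] at h6
    linarith

end Pool.Agent.V11321.EV
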