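import Pool.Agent.Y41.EV.StmD

/-!
Lower bound for the `ψ`-variation: recursion over the scales.
-/

set_option autoImplicit false
set_option linter.unusedVariables false

namespace Pool.Agent.V11321.EV

open Pool.Agent.Y41.EV
open MeasureTheory Filter Topology

theorem VG_mono {f : C(unitInterval, ℂ)} {η η' : ℝ} {s t : unitInterval} {x : ℝ}
    (h : VG f η s t x) (hη : η ≤ η') : VG f η' s t x := by
  obtain ⟨n, τ, h1, h2, h3, h4, h5⟩ := h
  exact ⟨n, τ, h1, h2, h3, fun i hi => (h4 i hi).trans hη, h5⟩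

theorem tree1 {f : C(unitInterval, ℂ)} {η T c0 α w τ l : ℝ} {N : ℕ} {s t : unitInterval}
    (hη : 0 < η) (hT : 0 < T) (hN : 1 ≤ N) (hα : 0 ≤ α) (hαc : α ≤ c0) (hw : 0 < w) (hl : 0 < l)
    (hτ0 : 0 ≤ τ) (hst : s ≤ t) (hc : c0 * (2 * τ + 4 * l) ≤ psi w) (hτ : τ ≤ η * T)
    (hsm : ∀ u v : unitInterval, |(u : ℝ) - v| ≤ η → dist (f u) (f v) ≤ 1)
    (hr : ∀ s' t' : unitInterval, s ≤ s' → s' ≤ t' → t' ≤ t → l < T * ((t' : ℝ) - s') →
      VG f η s' t' (α * (T * ((t' : ℝ) - s'))))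
    (hP : PairsO f T w τ N s t) :
    VG f η s t (α * (T * ((t : ℝ) - s)) + N * psi w / 2) := by
  obtain ⟨u, v, h1, h2, h3⟩ := hP
  have hweak : ∀ s' t' : unitInterval, s ≤ s' → s' ≤ t' → t' ≤ t →
      VG f η s' t' (α * (T * ((t' : ℝ) - s')) - α * l) := by
    intro s' t' k1 k2 k3
    rcases lt_or_ge l (T * ((t' : ℝ) - s')) with h | h
    · refine (hr s' t' k1 k2 k3 h).le ?_
      have := mul_nonneg hα hl.le
      linarith
    · refine (VG.triv f hη k2).le ?_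
      have := mul_le_mul_of_nonneg_left h hα
      linarith
  have hind : ∀ m : ℕ, m ≤ N → ∃ e : unitInterval, s ≤ e ∧ (∀ a : Fin N, m ≤ (a : ℕ) → e ≤ u a) ∧
      e ≤ t ∧ VG f η s e (α * (T * ((e : ℝ) - s)) + m * (psi w - α * (τ + l))) := by
    intro m
    induction m with
    | zero =>
      intro _
      refine ⟨s, le_rfl, fun a _ => (h1 a).1, hst, (VG.refl f η s).le ?_⟩
      simp
    | succ m ih =>
      intro hm
      obtain ⟨e, e1, e2, e3, e4⟩ := ih (by omega)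
      obtain ⟨a, ha⟩ : ∃ a : Fin N, (a : ℕ) = m := ⟨⟨m, by omega⟩, rfl⟩
      obtain ⟨a1, a2, a3⟩ := h1 a
      obtain ⟨b1, b2⟩ := h3 a
      have a2' : (u a : ℝ) ≤ v a := a2
      have g1 := hweak e (u a) e1 (e2 a (by omega)) (a2.trans a3)
      have hmesh : (v a : ℝ) - u a ≤ η := by
        have : T * ((v a : ℝ) - u a) ≤ T * η := b2.trans (by linarith)
        exact le_of_mul_le_mul_left this hT
      have g2 := VG.single (f := f) (η := η) a2 hmesh
      refine ⟨v a, a1.trans a2, fun b hb => h2 a b ?_, a3, ((e4.add g1).add g2).le ?_⟩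
      · rw [Fin.lt_def]; omega
      · have h5 : psi w ≤ psi (dist (f (u a)) (f (v a))) :=
          psi_mono hw.le b1 (hsm _ _ (by rw [abs_sub_comm, abs_of_nonneg (by linarith)]; exact hmesh))
        have h6 := mul_le_mul_of_nonneg_left b2 hα
        push_cast
        nlinarith
  obtain ⟨e, e1, -, e3, e4⟩ := hind N le_rfl
  have g1 := hweak e t e1 e3 le_rfl
  refine (e4.add g1).le ?_
  have hN' : (1:ℝ) ≤ N := by exact_mod_cast hN
  have h5 : α * (2 * τ + 4 * l) ≤ c0 * (2 * τ + 4 * l) :=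
    mul_le_mul_of_nonneg_right hαc (by positivity)
  have h6 : α * l ≤ N * (α * l) := le_mul_of_one_le_left (by positivity) hN'
  have h7 : (N:ℝ) * (α * (τ + 2 * l)) ≤ N * (psi w / 2) :=
    mul_le_mul_of_nonneg_left (by linarith) (by positivity)
  nlinarith

theorem subdiv {f : C(unitInterval, ℂ)} {η T l β : ℝ} (hT : 0 < T) (hl : 0 < l)
    {I0 : Set unitInterval}
    (h : ∀ s t : unitInterval, Set.Icc s t ⊆ I0 → l < T * ((t : ℝ) - s) →
      T * ((t : ℝ) - s) ≤ 2 * l → VG f η s t (β * (T * ((t : ℝ) - s)))) :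
    ∀ (k : ℕ) (s t : unitInterval), Set.Icc s t ⊆ I0 → l < T * ((t : ℝ) - s) →
      T * ((t : ℝ) - s) ≤ 2 ^ k * (2 * l) → VG f η s t (β * (T * ((t : ℝ) - s))) := by
  intro k
  induction k with
  | zero =>
    intro s t h1 h2 h3
    exact h s t h1 h2 (by simpa using h3)
  | succ k ih =>
    intro s t h1 h2 h3
    rcases le_or_gt (T * ((t : ℝ) - s)) (2 * l) with h4 | h4
    · exact h s t h1 h2 h4
    have hpos : 0 < T * ((t : ℝ) - s) := by linarith
    have hst : (0:ℝ) < (t : ℝ) - s := by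
      by_contra hcon
      push Not at hcon
      have := mul_nonpos_of_nonneg_of_nonpos hT.le hcon
      linarith
    obtain ⟨c, hc⟩ : ∃ c : unitInterval, (c : ℝ) = ((s : ℝ) + t) / 2 :=
      ⟨⟨((s : ℝ) + t) / 2, by have := s.2.1; have := t.2.1; linarith,
        by have := s.2.2; have := t.2.2; linarith⟩, rfl⟩
    have hsc : s ≤ c := by
      show (s : ℝ) ≤ c
      rw [hc]; linarith
    have hct : c ≤ t := by
      show (c : ℝ) ≤ t
      rw [hc]; linarith
    have e1 : T * ((c : ℝ) - s) = T * ((t : ℝ) - s) / 2 := by rw [hc]; ring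
    have e2 : T * ((t : ℝ) - c) = T * ((t : ℝ) - s) / 2 := by rw [hc]; ring
    rw [pow_succ] at h3
    have g1 := ih s c ((Set.Icc_subset_Icc_right hct).trans h1) (by rw [e1]; linarith)
      (by rw [e1]; linarith)
    have g2 := ih c t ((Set.Icc_subset_Icc_left hsc).trans h1) (by rw [e2]; linarith)
      (by rw [e2]; linarith)
    refine (g1.add g2).le ?_
    rw [e1, e2]
    linarith

theorem tree2 {f : C(unitInterval, ℂ)} {η T c0 : ℝ} (hη : 0 < η) (hT : 0 < T) (hc0 : 0 < c0)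
    {N : ℕ → ℕ} {l τ w a : ℕ → ℝ} {i0 : ℕ} {I0 : Set unitInterval}
    (hsm : ∀ u v : unitInterval, |(u : ℝ) - v| ≤ η → dist (f u) (f v) ≤ 1)
    (h1 : ∀ i, i0 ≤ i → 1 ≤ N i ∧ 0 < w i ∧ 0 < l i ∧ 0 ≤ a i ∧ 0 ≤ τ i ∧ τ i ≤ η * T)
    (h2 : ∀ i, i0 ≤ i → c0 * (2 * τ i + 4 * l (i + 1)) ≤ psi (w i))
    (h3 : ∀ i, i0 ≤ i → 4 * l i * a i ≤ N i * psi (w i))
    (h4 : ∀ i, i0 ≤ i → ∀ s t : unitInterval, Set.Icc s t ⊆ I0 → l i < T * ((t : ℝ) - s) →
      Pairs f T (w i) (τ i) (N i) s t) :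
    ∀ (m i : ℕ), i0 ≤ i → ∀ s t : unitInterval, Set.Icc s t ⊆ I0 → l i < T * ((t : ℝ) - s) →
      VG f η s t (min c0 (∑ j ∈ Finset.Ico i (i + m), a j) * (T * ((t : ℝ) - s))) := by
  have hle : ∀ i, i0 ≤ i → ∀ s t : unitInterval, l i < T * ((t : ℝ) - s) → s ≤ t := by
    intro i hi s t h
    obtain ⟨-, -, k3, -⟩ := h1 i hi
    by_contra hcon
    push Not at hcon
    have h5 : (t : ℝ) < s := hcon
    have := mul_nonpos_of_nonneg_of_nonpos hT.le (show (t : ℝ) - s ≤ 0 by linarith)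
    linarith
  intro m
  induction m with
  | zero =>
    intro i hi s t hI hlt
    refine (VG.triv f hη (hle i hi s t hlt)).le ?_
    simp only [add_zero, Finset.Ico_self, Finset.sum_empty]
    rw [min_eq_right hc0.le, zero_mul]
  | succ m ih =>
    intro i hi s t hI hlt
    obtain ⟨k1, k2, k3, k4, k5, k6⟩ := h1 i hi
    obtain ⟨l1, l2, l3, l4, l5, l6⟩ := h1 (i + 1) (by omega)
    obtain ⟨α, hα⟩ : ∃ α : ℝ, α = min c0 (∑ j ∈ Finset.Ico (i + 1) (i + 1 + m), a j) := ⟨_, rfl⟩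
    have hα0 : 0 ≤ α := by
      rw [hα]
      refine le_min hc0.le (Finset.sum_nonneg fun j hj => ?_)
      rw [Finset.mem_Ico] at hj
      exact (h1 j (by omega)).2.2.2.1
    have hαc : α ≤ c0 := by rw [hα]; exact min_le_left _ _
    have hsum : ∑ j ∈ Finset.Ico i (i + (m + 1)), a j =
        a i + ∑ j ∈ Finset.Ico (i + 1) (i + 1 + m), a j := by
      rw [Finset.sum_eq_sum_Ico_succ_bot (by omega), show i + (m + 1) = i + 1 + m by omega]
    have hβ : min c0 (∑ j ∈ Finset.Ico i (i + (m + 1)), a j) ≤ α + a i := by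
      rw [hsum, hα]
      rcases le_total c0 (∑ j ∈ Finset.Ico (i + 1) (i + 1 + m), a j) with h | h
      · rw [min_eq_left h]
        exact (min_le_left _ _).trans (by linarith)
      · rw [min_eq_right h]
        exact (min_le_right _ _).trans (by linarith)
    obtain ⟨k, hk⟩ := pow_unbounded_of_one_lt (T * ((t : ℝ) - s) / (2 * l i)) (show (1:ℝ) < 2 by norm_num)
    refine subdiv hT k3 (I0 := I0) ?_ k s t hI hlt (by
      rw [div_lt_iff₀ (by positivity)] at hk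
      exact hk.le)
    intro s' t' g1 g2 g3
    have hst := hle i hi s' t' g2
    refine (tree1 hη hT k1 hα0 hαc k2 l3 k5 hst (h2 i hi) k6 hsm ?_
      ((h4 i hi s' t' g1 g2).sort k2)).le ?_
    · intro s'' t'' j1 j2 j3 j4
      rw [hα]
      exact ih (i + 1) (by omega) s'' t'' ((Set.Icc_subset_Icc j1 j3).trans g1) j4
    · have hpos : 0 ≤ T * ((t' : ℝ) - s') := by linarith
      have e1 := mul_le_mul_of_nonneg_right hβ hpos
      have e2 := h3 i hi
      have e3 := mul_le_mul_of_nonneg_left g3 k4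
      nlinarith

theorem lowbulk {f : C(unitInterval, ℂ)} {T c0 : ℝ} (hT : 0 < T) (hc0 : 0 < c0)
    {N : ℕ → ℕ} {l τ w a : ℕ → ℝ} {I0 : Set unitInterval}
    (h1 : ∀ᶠ i in atTop, 1 ≤ N i ∧ 0 < w i ∧ 0 < l i ∧ 0 ≤ a i ∧ 0 ≤ τ i)
    (hτ : Tendsto τ atTop (𝓝 0)) (hl : Tendsto l atTop (𝓝 0))
    (h2 : ∀ᶠ i in atTop, c0 * (2 * τ i + 4 * l (i + 1)) ≤ psi (w i))
    (h3 : ∀ᶠ i in atTop, 4 * l i * a i ≤ N i * psi (w i))
    (hs : ∀ i0 : ℕ, Tendsto (fun m : ℕ => ∑ i ∈ Finset.Ico i0 (i0 + m), a i) atTop atTop)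
    (h4 : ∀ᶠ i in atTop, ∀ s t : unitInterval, Set.Icc s t ⊆ I0 → l i < T * ((t : ℝ) - s) →
      Pairs f T (w i) (τ i) (N i) s t) {s t : unitInterval} (hst : s < t)
    (hI : Set.Icc s t ⊆ I0) {η : ℝ} (hη : 0 < η) : VG f η s t (c0 * (T * ((t : ℝ) - s))) := by
  have huc : UniformContinuous f := CompactSpace.uniformContinuous_of_continuous f.continuous
  obtain ⟨ρ, hρ, hρ2⟩ := Metric.uniformContinuous_iff.1 huc 1 one_pos
  obtain ⟨η', hη'⟩ : ∃ η' : ℝ, η' = min η (ρ / 2) := ⟨_, rfl⟩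
  have hη'0 : 0 < η' := by rw [hη']; exact lt_min hη (by linarith)
  have hpos : (0:ℝ) < (t : ℝ) - s := by
    have : (s : ℝ) < t := hst
    linarith
  obtain ⟨i0, hi0⟩ := eventually_atTop.1 (h1.and (h2.and (h3.and (h4.and
    ((hτ.eventually (ge_mem_nhds (show (0:ℝ) < η' * T by positivity))).and
      (hl.eventually (gt_mem_nhds (show (0:ℝ) < T * ((t : ℝ) - s) by positivity))))))))
  obtain ⟨m, hm⟩ := ((hs i0).eventually (eventually_ge_atTop c0)).exists
  have hgo := tree2 (f := f) (η := η') (T := T) (c0 := c0) hη'0 hT hc0 (N := N) (l := l) (τ := τ)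
    (w := w) (a := a) (i0 := i0) (I0 := I0) (fun u v huv => (hρ2 (by
      rw [Subtype.dist_eq, Real.dist_eq]
      have : η' ≤ ρ / 2 := by rw [hη']; exact min_le_right _ _
      linarith)).le)
    (fun i hi => by
      obtain ⟨⟨a1, a2, a3, a4, a5⟩, -, -, -, a9, -⟩ := hi0 i hi
      exact ⟨a1, a2, a3, a4, a5, a9⟩)
    (fun i hi => (hi0 i hi).2.1) (fun i hi => (hi0 i hi).2.2.1)
    (fun i hi => (hi0 i hi).2.2.2.1) m i0 le_rfl s t hI (hi0 i0 le_rfl).2.2.2.2.2
  rw [min_eq_left hm] at hgo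
  exact VG_mono hgo (by rw [hη']; exact min_le_left _ _)

end Pool.Agent.V11321.EV
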