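import Pool.Agent.V11321.EV.Up

/-!
Upper bound for the `ψ`-sums over some intervals of a partition.
-/

set_option autoImplicit false
set_option linter.unusedVariables false

namespace Pool.Agent.V11321.EV

open H984N Pool.Agent.Y41.EV
open MeasureTheory Filter Topology
open scoped ENNReal NNReal

theorem up_sub {p : X} (hp : 0 < p.2) {K Λ : ℝ} (hK : 0 < K) (hΛ : 0 < Λ)
    (hft : ∀ᶠ n : ℕ in atTop,
      p.2 * (volume (FT p (yn K n) (2 * (1/2) ^ n))).toReal ≤ 1 / (n : ℝ) ^ 2)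
    (hmod : ∃ h0 : ℝ, 0 < h0 ∧ ∀ h : ℝ, 0 < h → h < h0 → ∀ s t : unitInterval,
      |(s : ℝ) - t| * p.2 ≤ h →
      dist (p.1 s) (p.1 t) ≤ Λ * (h ^ (4/7 : ℝ) * Real.log (1 / h) ^ (3/7 : ℝ)))
    {ε : ℝ} (hε : 0 < ε) : ∃ η : ℝ, 0 < η ∧ ∀ (N : ℕ) (τ : ℕ → unitInterval), Monotone τ →
      (∀ i < N, (τ (i + 1) : ℝ) - τ i ≤ η) →
      ∀ S : Finset ℕ, S ⊆ Finset.range N →
      ∑ i ∈ S, psi (dist (p.1 (τ i)) (p.1 (τ (i + 1)))) ≤
        4 * (2 * K) ^ (7/4 : ℝ) * (p.2 * ∑ i ∈ S, ((τ (i + 1) : ℝ) - τ i)) + ε := by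
  classical
  obtain ⟨g, hg⟩ : ∃ g : ℕ → ℝ, g = fun n : ℕ => 2 * Λ ^ (7/4 : ℝ) * (1 / (n : ℝ) ^ (5/4 : ℝ)) := ⟨_, rfl⟩
  have hgs : Summable g := by
    rw [hg]
    exact (Real.summable_one_div_nat_rpow.mpr (by norm_num)).mul_left _
  obtain ⟨s0, hs0⟩ := summable_iff_vanishing_norm.1 hgs ε hε
  obtain ⟨h0, hh0, hmod⟩ := hmod
  obtain ⟨n0, hn0⟩ := eventually_atTop.1 ((ll_yn hK).and (hft.and
    ((eventually_ge_atTop 1).and (eventually_gt_atTop (s0.sup id)))))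
  obtain ⟨η, hη⟩ : ∃ η : ℝ, η = min (h0 / 2) ((1/2) ^ n0) / p.2 := ⟨_, rfl⟩
  have hη0 : 0 < η := by
    rw [hη]
    exact div_pos (lt_min (by linarith) (by positivity)) hp
  have hηT : p.2 * η = min (h0 / 2) ((1/2) ^ n0) := by rw [hη]; field_simp
  refine ⟨η, hη0, fun N τ hτ hmesh S hS => ?_⟩
  obtain ⟨l, hl⟩ : ∃ l : ℕ → ℝ, l = fun i => p.2 * ((τ (i + 1) : ℝ) - τ i) := ⟨_, rfl⟩
  have hmono : ∀ i, τ i ≤ τ (i + 1) := fun i => hτ (Nat.le_succ i)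
  have hl0 : ∀ i, 0 ≤ l i := by
    intro i
    rw [hl]
    have : (τ i : ℝ) ≤ τ (i + 1) := hmono i
    exact mul_nonneg hp.le (by linarith)
  have hlη : ∀ i < N, l i ≤ min (h0 / 2) ((1/2) ^ n0) := by
    intro i hi
    rw [← hηT, hl]
    exact mul_le_mul_of_nonneg_left (hmesh i hi) hp.le
  have hcl : ∀ i < N, psi (dist (p.1 (τ i)) (p.1 (τ (i + 1)))) ≤ 4 * (2 * K) ^ (7/4 : ℝ) * l i ∨
      ∃ n : ℕ, n0 ≤ n ∧ psi (dist (p.1 (τ i)) (p.1 (τ (i + 1)))) ≤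
        Λ ^ (7/4 : ℝ) * (((n : ℝ) + 1) ^ (3/4 : ℝ) * l i) ∧
        ∀ x : unitInterval, τ i ≤ x → x ≤ τ (i + 1) → x ∈ FT p (yn K n) (2 * (1/2) ^ n) := by
    intro i hi
    have h1 := hlη i hi
    refine one_int hp hK hΛ (h0 := h0) (fun n hn => (hn0 n hn).1) hmod (hmono i) (by rw [hl]) ?_ ?_
    · have := min_le_left (h0 / 2) (((1:ℝ)/2) ^ n0)
      linarith
    · exact h1.trans (min_le_right _ _)
  obtain ⟨Bd, hBd⟩ : ∃ Bd : Finset ℕ, Bd = S.filter (fun i =>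
    ¬ psi (dist (p.1 (τ i)) (p.1 (τ (i + 1)))) ≤ 4 * (2 * K) ^ (7/4 : ℝ) * l i) := ⟨_, rfl⟩
  have hbad : ∀ i ∈ Bd, ∃ n : ℕ, n0 ≤ n ∧ psi (dist (p.1 (τ i)) (p.1 (τ (i + 1)))) ≤
        Λ ^ (7/4 : ℝ) * (((n : ℝ) + 1) ^ (3/4 : ℝ) * l i) ∧
        ∀ x : unitInterval, τ i ≤ x → x ≤ τ (i + 1) → x ∈ FT p (yn K n) (2 * (1/2) ^ n) := by
    intro i hi
    rw [hBd, Finset.mem_filter] at hi
    exact (hcl i (Finset.mem_range.1 (hS hi.1))).resolve_left hi.2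
  choose! ν hν1 hν2 hν3 using hbad
  have hsplit : ∑ i ∈ S, psi (dist (p.1 (τ i)) (p.1 (τ (i + 1)))) ≤
      ∑ i ∈ S, 4 * (2 * K) ^ (7/4 : ℝ) * l i +
        ∑ i ∈ Bd, Λ ^ (7/4 : ℝ) * (((ν i : ℝ) + 1) ^ (3/4 : ℝ) * l i) := by
    rw [← Finset.sum_filter_add_sum_filter_not S (fun i =>
      psi (dist (p.1 (τ i)) (p.1 (τ (i + 1)))) ≤ 4 * (2 * K) ^ (7/4 : ℝ) * l i)
      (fun i => psi (dist (p.1 (τ i)) (p.1 (τ (i + 1)))))]
    refine add_le_add ?_ ?_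
    · refine (Finset.sum_le_sum fun i hi => (Finset.mem_filter.1 hi).2).trans ?_
      refine Finset.sum_le_sum_of_subset_of_nonneg (Finset.filter_subset _ _) fun i _ _ => ?_
      have := hl0 i
      positivity
    · rw [← hBd]
      exact Finset.sum_le_sum fun i hi => hν2 i hi
  have hsum1 : ∑ i ∈ S, 4 * (2 * K) ^ (7/4 : ℝ) * l i =
      4 * (2 * K) ^ (7/4 : ℝ) * (p.2 * ∑ i ∈ S, ((τ (i + 1) : ℝ) - τ i)) := by
    rw [← Finset.mul_sum, hl, ← Finset.mul_sum]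
  have hcell : ∀ n ∈ Bd.image ν, ∑ i ∈ Bd.filter (fun i => ν i = n),
      ((τ (i + 1) : ℝ) - τ i) ≤ (volume (FT p (yn K n) (2 * (1/2) ^ n))).toReal := by
    intro n hn
    have hsub : (⋃ i ∈ Bd.filter (fun i => ν i = n), Set.Ioc (τ i) (τ (i + 1))) ⊆
        FT p (yn K n) (2 * (1/2) ^ n) := by
      intro x hx
      simp only [Set.mem_iUnion] at hx
      obtain ⟨i, hi, hx⟩ := hx
      rw [Finset.mem_filter] at hi
      have := hν3 i hi.1 x hx.1.le hx.2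
      rwa [hi.2] at this
    have hm := measure_mono (μ := (volume : Measure unitInterval)) hsub
    have hdis : Set.PairwiseDisjoint (↑(Bd.filter (fun i => ν i = n)) : Set ℕ)
        (fun i => Set.Ioc (τ i) (τ (i + 1))) :=
      fun i _ j _ hij => hτ.pairwise_disjoint_on_Ioc_succ hij
    rw [measure_biUnion_finset hdis (fun i _ => measurableSet_Ioc)] at hm
    have e : ∑ i ∈ Bd.filter (fun i => ν i = n), volume (Set.Ioc (τ i) (τ (i + 1))) =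
        ENNReal.ofReal (∑ i ∈ Bd.filter (fun i => ν i = n), ((τ (i + 1) : ℝ) - τ i)) := by
      rw [ENNReal.ofReal_sum_of_nonneg (fun i _ => by
        have : (τ i : ℝ) ≤ τ (i + 1) := hmono i
        linarith)]
      refine Finset.sum_congr rfl fun i _ => ?_
      rw [unitInterval.volume_Ioc]
    rw [e] at hm
    exact (ENNReal.ofReal_le_iff_le_toReal (measure_ne_top _ _)).1 hm
  have hsum2 : ∑ i ∈ Bd, Λ ^ (7/4 : ℝ) * (((ν i : ℝ) + 1) ^ (3/4 : ℝ) * l i) ≤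
      ∑ n ∈ Bd.image ν, g n := by
    rw [← Finset.sum_fiberwise_of_maps_to (s := Bd) (t := Bd.image ν) (g := ν)
      (fun i hi => Finset.mem_image_of_mem ν hi)]
    refine Finset.sum_le_sum fun n hn => ?_
    have hnn0 : n0 ≤ n := by
      obtain ⟨i, hi, rfl⟩ := Finset.mem_image.1 hn
      exact hν1 i hi
    obtain ⟨-, k2, k3, -⟩ := hn0 n hnn0
    have hn1 : (1:ℝ) ≤ n := by exact_mod_cast k3
    have e1 : ∑ i ∈ Bd.filter (fun i => ν i = n), Λ ^ (7/4 : ℝ) * (((ν i : ℝ) + 1) ^ (3/4 : ℝ) * l i) =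
        Λ ^ (7/4 : ℝ) * ((n : ℝ) + 1) ^ (3/4 : ℝ) * (p.2 *
          ∑ i ∈ Bd.filter (fun i => ν i = n), ((τ (i + 1) : ℝ) - τ i)) := by
      rw [Finset.mul_sum, Finset.mul_sum]
      refine Finset.sum_congr rfl fun i hi => ?_
      rw [(Finset.mem_filter.1 hi).2, hl]
      ring
    rw [e1, hg]
    have h5 := (mul_le_mul_of_nonneg_left (hcell n hn) hp.le).trans k2
    have h6 : ((n : ℝ) + 1) ^ (3/4 : ℝ) ≤ 2 * (n : ℝ) ^ (3/4 : ℝ) := by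
      have h7 : ((n : ℝ) + 1) ^ (3/4 : ℝ) ≤ (2 * n) ^ (3/4 : ℝ) :=
        Real.rpow_le_rpow (by positivity) (by linarith) (by norm_num)
      rw [Real.mul_rpow (by norm_num) (by positivity)] at h7
      have h10 : (2:ℝ) ^ (3/4 : ℝ) ≤ 2 := by
        have : (2:ℝ) ^ (3/4 : ℝ) ≤ 2 ^ (1 : ℝ) :=
          Real.rpow_le_rpow_of_exponent_le (by norm_num) (by norm_num)
        rwa [Real.rpow_one] at this
      exact h7.trans (mul_le_mul_of_nonneg_right h10 (by positivity))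
    have h8 : (n : ℝ) ^ (3/4 : ℝ) * (1 / (n : ℝ) ^ 2) = 1 / (n : ℝ) ^ (5/4 : ℝ) := by
      have hn00 : (0:ℝ) < n := by linarith
      have e2 : (n : ℝ) ^ 2 = (n : ℝ) ^ (3/4 : ℝ) * (n : ℝ) ^ (5/4 : ℝ) := by
        rw [← Real.rpow_add hn00, ← Real.rpow_natCast]; norm_num
      have e3 : (0:ℝ) < (n : ℝ) ^ (3/4 : ℝ) := by positivity
      have e4 : (0:ℝ) < (n : ℝ) ^ (5/4 : ℝ) := by positivity
      rw [e2]
      field_simp
    have h12 : 0 ≤ p.2 * ∑ i ∈ Bd.filter (fun i => ν i = n), ((τ (i + 1) : ℝ) - τ i) := by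
      refine mul_nonneg hp.le (Finset.sum_nonneg fun i _ => ?_)
      have : (τ i : ℝ) ≤ τ (i + 1) := hmono i
      linarith
    calc Λ ^ (7/4 : ℝ) * ((n : ℝ) + 1) ^ (3/4 : ℝ) * (p.2 *
          ∑ i ∈ Bd.filter (fun i => ν i = n), ((τ (i + 1) : ℝ) - τ i))
        ≤ Λ ^ (7/4 : ℝ) * (2 * (n : ℝ) ^ (3/4 : ℝ)) * (1 / (n : ℝ) ^ 2) := by gcongr
      _ = 2 * Λ ^ (7/4 : ℝ) * ((n : ℝ) ^ (3/4 : ℝ) * (1 / (n : ℝ) ^ 2)) := by ring
      _ = _ := by rw [h8]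
  have hsmall : ∑ n ∈ Bd.image ν, g n < ε := by
    have hdis : Disjoint (Bd.image ν) s0 := by
      rw [Finset.disjoint_left]
      intro n hn hns
      obtain ⟨i, hi, rfl⟩ := Finset.mem_image.1 hn
      obtain ⟨-, -, -, k4⟩ := hn0 _ (hν1 i hi)
      have := Finset.le_sup (f := id) hns
      simp only [id] at this
      omega
    exact (le_abs_self _).trans_lt (hs0 _ hdis)
  rw [hsum1] at hsplit
  linarith

end Pool.Agent.V11321.EV
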